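import Pool.Agent.Lib.MP_7ed551_gt.Str

/-! The Chekanov case. -/

open scoped ContDiff Topology
open Set Real Filter

namespace Pool.Agent.Lib.MP_7ed551_gt

/-- The clockwise unit circle with initial angle `φ`. -/
noncomputable def cw (φ θ : ℝ) : ℂ := Complex.exp ((φ - θ : ℝ) * Complex.I)

theorem hd_cw (φ θ : ℝ) : HasDerivAt (cw φ) (-(cw φ θ * Complex.I)) θ := by
  refine ((hd_exp (φ - θ)).scomp θ ((hasDerivAt_id θ).const_sub φ)).congr_deriv ?_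
  simp [cw]

theorem norm_cw (φ θ : ℝ) : ‖cw φ θ‖ = 1 := Complex.norm_exp_ofReal_mul_I _

theorem cw_per (φ θ : ℝ) : cw φ (θ + 2 * π) = cw φ θ := by
  rw [cw, cw, Complex.exp_eq_exp_iff_exists_int]
  refine ⟨-1, ?_⟩
  push_cast
  ring

@[fun_prop] theorem cd_cw {E : Type} [NormedAddCommGroup E] [NormedSpace ℝ E] {n : WithTop ℕ∞}
    {f g : E → ℝ} (hf : ContDiff ℝ n f) (hg : ContDiff ℝ n g) :
    ContDiff ℝ n fun x => cw (f x) (g x) := by
  unfold cw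
  fun_prop

theorem kk_round {δ : ℝ} (hδ : 0 ≤ δ) (R φ θ : ℝ) {w : ℂ} (hw : ‖w‖ = 1) :
    kk (fun θ => R * cw φ θ) (fun _ => √δ) (fun _ => 0) (fun _ => √δ) (fun θ => δ / 2 * θ) θ w =
      ‖R * cw φ θ + √δ * w‖ ^ 2 / 2 := by
  have h1 := sq_nrm w
  have h2 := sq_sqrt hδ
  rw [kk_eq ((hd_cw φ θ).const_mul (R : ℂ)) (hd_lin _ _), qq_round, NN_round, sq_nrm]
  rw [hw] at h1
  simp only [w1, Complex.mul_re, Complex.mul_im, Complex.add_re, Complex.add_im, Complex.neg_re,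
    Complex.neg_im, Complex.ofReal_re, Complex.ofReal_im, Complex.I_re, Complex.I_im]
  linear_combination (-(w.re ^ 2 + w.im ^ 2) / 2) * h2 + δ / 2 * h1

theorem TT_chekanov {δ lam : ℝ} (hδ : 0 < δ) (h : π * δ = 2 * lam) :
    TT (fun θ => (2 * √δ : ℝ) * cw 0 θ) (fun _ => √δ) (fun _ => 0) (fun _ => √δ)
      (fun θ => δ / 2 * θ) = chekanov lam := by
  have h0 : 0 < √δ := sqrt_pos.2 hδ
  have h0' : (√δ : ℂ) ≠ 0 := Complex.ofReal_ne_zero.2 h0.ne'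
  have hl : 2 * lam / π = δ := by rw [← h, mul_div_cancel_left₀ _ pi_ne_zero]
  have hc : ∀ θ : ℝ, cw 0 θ * Complex.exp (θ * Complex.I) = 1 := fun θ => by
    rw [cw, ← Complex.exp_add]
    simp
  have hs : ∀ y : ℂ, √(2 * (‖y‖ ^ 2 / 2)) = ‖y‖ := fun y => by
    rw [mul_div_cancel₀ _ two_ne_zero, sqrt_sq (norm_nonneg _)]
  ext z
  simp only [TT, NN_round, chekanov, hl, mem_image, mem_ofPred_eq]
  constructor
  · rintro ⟨x, hx, rfl⟩
    have h2 : ‖x.2‖ = 1 := by simpa using hx.2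
    rw [kk_round hδ.le _ _ _ h2, hs]
    refine ⟨by simp, ((2 * √δ : ℝ) * cw 0 x.1 + √δ * x.2) * Complex.exp (x.1 * Complex.I), ?_, ?_⟩
    · rw [add_mul, mul_assoc, hc]
      simp [h2, abs_of_nonneg h0.le]
    · rw [norm_mul, Complex.norm_exp_ofReal_mul_I, mul_one]
      ring
  · rintro ⟨h2, ζ, h3, h4⟩
    have hζ : ζ ≠ 0 := by
      rintro rfl
      simp [abs_of_nonneg h0.le] at h3
      linarith
    have h5 : ‖z.2‖ = ‖ζ‖ := by
      have := congrArg norm h4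
      rw [norm_mul, norm_mul, h2, Complex.norm_real, norm_norm] at this
      exact (mul_self_inj_of_nonneg (norm_nonneg _) (norm_nonneg _)).1 this
    obtain ⟨θ, hθ, e⟩ := exists_angle z.2
    have h6 : z.1 = ζ * cw 0 θ := by
      have h7 : (‖ζ‖ : ℂ) ≠ 0 := by simpa using hζ
      rw [e, h5, mul_left_comm, mul_right_inj' h7] at h4
      rw [← h4, mul_assoc, mul_comm _ (cw 0 θ), hc, mul_one]
    have h7 : ‖(ζ - 2 * √δ) * cw 0 θ / √δ‖ = 1 := by
      rw [norm_div, norm_mul, h3, norm_cw]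
      simp [abs_of_nonneg h0.le, h0.ne']
    have h8 : (2 * √δ : ℝ) * cw 0 θ + √δ * ((ζ - 2 * √δ) * cw 0 θ / √δ) = z.1 := by
      rw [mul_div_cancel₀ _ h0', h6]
      push_cast
      ring
    refine ⟨(θ, (ζ - 2 * √δ) * cw 0 θ / √δ), ⟨hθ, by simpa using h7⟩, ?_⟩
    rw [kk_round hδ.le _ _ _ h7, hs, h8, h2]
    exact Prod.ext rfl e.symm

theorem big {X : Type} [TopologicalSpace X] {K : Set X} (hK : IsCompact K) {f g h : X → ℝ}
    (hf : ContinuousOn f K) (hg : ContinuousOn g K) (hh : ContinuousOn h K)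
    (h0 : ∀ x ∈ K, 0 < f x) (M : ℝ) :
    ∃ S, 1 ≤ S ∧ M ≤ S ∧ ∀ x ∈ K, 0 < S ^ 2 * f x + S * g x + h x := by
  obtain ⟨c, hc, h1⟩ := hK.exists_forall_le' hf h0
  obtain ⟨A, hA⟩ := hK.exists_bound_of_continuousOn hg
  obtain ⟨B, hB⟩ := hK.exists_bound_of_continuousOn hh
  refine ⟨max (max 1 M) ((|A| + |B| + 1) / c), (le_max_left _ _).trans (le_max_left _ _),
    (le_max_right _ _).trans (le_max_left _ _), fun x hx => ?_⟩
  have h2 : 1 ≤ max (max 1 M) ((|A| + |B| + 1) / c) := (le_max_left _ _).trans (le_max_left _ _)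
  have h3 := (div_le_iff₀ hc).1 (le_max_right (max 1 M) ((|A| + |B| + 1) / c))
  generalize max (max 1 M) ((|A| + |B| + 1) / c) = S at h2 h3
  have h4 := (abs_le.1 ((hA x hx).trans (le_abs_self A))).1
  have h5 := (abs_le.1 ((hB x hx).trans (le_abs_self B))).1
  have h6 : S * c ≤ S * f x := mul_le_mul_of_nonneg_left (h1 x hx) (by linarith)
  have h7 : |B| + 1 ≤ S * f x + g x := by linarith
  nlinarith [abs_nonneg B]

variable {δ : ℝ} {p : ℝ → ℂ} {ρ τ κ C E : ℝ → ℝ}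

/-- The mixed area term of the loop of centres and a clockwise circle. -/
noncomputable def cross (p : ℝ → ℂ) (φ θ : ℝ) : ℝ :=
  (w1 (p θ) (-(cw φ θ * Complex.I)) + w1 (cw φ θ) (deriv p θ)) / 2

theorem exists_cross (hp : ContDiff ℝ ∞ p) (pp : ∀ θ, p (θ + 2 * π) = p θ) :
    ∃ (φ m : ℝ) (G : ℝ → ℝ), 0 ≤ m ∧ ContDiff ℝ ∞ G ∧ (∀ θ, G (θ + 2 * π) = G θ) ∧
      ∀ θ, HasDerivAt G (cross p φ θ + m) θ := by
  obtain ⟨φ, hφ⟩ : ∃ φ, ∫ t in (0 : ℝ)..2 * π, cross p φ t ≤ 0 := by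
    rcases le_total (∫ t in (0 : ℝ)..2 * π, cross p 0 t) 0 with h | h
    · exact ⟨0, h⟩
    · refine ⟨π, ?_⟩
      have h1 : ∀ t, cw π t = -cw 0 t := fun t => by
        simp [cw, sub_mul, Complex.exp_sub, Complex.exp_neg, div_eq_mul_inv]
      have h2 : ∀ t, cross p π t = -cross p 0 t := fun t => by
        simp only [cross, h1, w1, neg_mul, Complex.neg_re, Complex.neg_im]
        ring
      simpa [h2] using h
  have h1 : ContDiff ℝ ∞ (cross p φ) := by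
    unfold cross
    fun_prop
  have h2 : ∀ θ, deriv p (θ + 2 * π) = deriv p θ := fun θ => by
    rw [← deriv_comp_add_const, funext pp]
  obtain ⟨F, h3, h4, h5⟩ := prim h1 fun θ => by simp only [cross, pp, h2, cw_per]
  refine ⟨φ, -(∫ t in (0 : ℝ)..2 * π, cross p φ t) / (2 * π), fun θ => F θ +
    -(∫ t in (0 : ℝ)..2 * π, cross p φ t) / (2 * π) * θ, div_nonneg (neg_nonneg.2 hφ)
      two_pi_pos.le, by fun_prop, fun θ => ?_, fun θ => (h4 θ).add (hd_lin _ θ)⟩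
  simp only [h5]
  field_simp
  ring

theorem Dat.chekanov (D : Dat δ p ρ τ κ C E) {lam : ℝ} (h : π * δ = 2 * lam)
    (H : ∀ θ s w, s ≠ 0 → ‖w‖ ^ 2 ≤ s ^ 2 → 0 < hk p ρ τ κ C E θ s w) :
    HamIso (TT p ρ τ κ fun θ => C θ - E θ) (chekanov lam) := by
  obtain ⟨a, b, c, sa, sb, sc, ⟨a0, b0, c0⟩, ⟨a1, b1, c1⟩, hs⟩ := stag
  obtain ⟨φ, m, hm, G, sG, pG, dG⟩ : ∃ φ m : ℝ, 0 ≤ m ∧ ∃ G : ℝ → ℝ, ContDiff ℝ ∞ G ∧
      (∀ θ, G (θ + 2 * π) = G θ) ∧ ∀ θ, HasDerivAt G (cross p φ θ + m) θ := by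
    obtain ⟨φ, m, G, h1, h2⟩ := exists_cross D.sp D.pp
    exact ⟨φ, m, h1, G, h2⟩
  have h1 := D.sp
  have h2 := D.sC
  have h3 := D.sE
  have hc0 : ∀ θ, 0 < deriv C θ - w1 (p θ) (deriv p θ) / 2 := fun θ => by
    simpa [hk, qq, NN, w1] using H θ 1 0 one_ne_zero (by simp)
  have k1 := h1.continuous
  have k2 := cont_deriv h1
  have k3 := cont_deriv h2
  have k4 := cont_deriv h3
  have k5 := D.sρ.continuous
  have k6 := D.sτ.continuous
  have k7 := D.sκ.continuous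
  have k8 := cont_deriv D.sρ
  have k9 := cont_deriv D.sτ
  have k10 := cont_deriv D.sκ
  have k11 : Continuous (cw φ) := (cd_cw (n := 0) contDiff_const contDiff_id).continuous
  have hne : ∀ x ∈ Icc (0 : ℝ) 1 ×ˢ Icc 0 (2 * π) ×ˢ Metric.sphere (0 : ℂ) 1,
      (1 - x.1) * ρ x.2.1 + x.1 * √δ ≠ 0 := fun x hx => (D.rb_pos hx.1 _).ne'
  obtain ⟨S, S1, S2, hS⟩ := big
    (isCompact_Icc.prod (isCompact_Icc.prod (isCompact_sphere (0 : ℂ) 1)))
    (K := Icc (0 : ℝ) 1 ×ˢ Icc 0 (2 * π) ×ˢ Metric.sphere (0 : ℂ) 1)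
    (f := fun x => (1 - x.1) ^ 2 * (deriv C x.2.1 - w1 (p x.2.1) (deriv p x.2.1) / 2) +
      x.1 ^ 2 / 2)
    (g := fun x => w1 (((1 - x.1 : ℝ) : ℂ) * deriv p x.2.1 + x.1 * -(cw φ x.2.1 * Complex.I))
      (NN (rb δ ρ x.1 x.2.1) (tb δ ρ τ x.1 x.2.1) (kb δ ρ x.1 x.2.1) x.2.2))
    (h := fun x => qq ρ τ κ x.2.1 (wb δ ρ x.1 x.2.1 x.2.2) - (1 - x.1) * deriv E x.2.1 +
      x.1 * (δ / 2))
    (by simp only [w1]; fun_prop)
    (by simp only [w1, NN, rb, tb, kb]; fun_prop (disch := exact hne))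
    (by simp only [qq, w1, NN, wb, rb]; fun_prop (disch := exact hne))
    (fun x _ => by
      have := hc0 x.2.1
      rcases eq_or_ne x.1 0 with h0 | h0
      · simpa [h0] using this
      · positivity) (2 * √δ)
  have key := D.susp sb (fun s => (hs s).1.2.1) b0 b1
    (P := fun x => (((1 - b x.1) * (1 + a x.1 * (S - 1)) : ℝ) : ℂ) * p x.2 +
      ((b x.1 * ((1 - c x.1) * S + c x.1 * (2 * √δ)) : ℝ) : ℂ) * cw ((1 - c x.1) * φ) x.2)
    (B := fun x => (1 + a x.1 * (S - 1)) ^ 2 * ((1 - b x.1) ^ 2 * C x.2 +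
      b x.1 * (1 - b x.1) * G x.2) - ((1 - b x.1) * E x.2 - b x.1 * (δ / 2 * x.2)))
    (by fun_prop) (by fun_prop) (fun s θ => by simp only [D.pp, cw_per])
    (fun s θ => by simp only [D.pC, D.pE, pG]; ring) fun s θ hθ w hw => ?_
  · simpa [a0, b0, c0, a1, b1, c1, ← TT_chekanov D.δ0 h] using key
  obtain ⟨⟨ha, hb, hc⟩, ⟨e1, e2⟩ | ⟨e1, e2⟩ | ⟨e1, e2⟩⟩ := hs s
  · obtain ⟨z1, z2, z3⟩ := D.zero
    have h4 : 1 ≤ 1 + a s * (S - 1) := le_add_of_nonneg_right (mul_nonneg ha.1 (by linarith))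
    simp only [e1, e2, z1, z2, z3, sub_zero, one_mul, zero_mul, one_pow, add_zero,
      Complex.ofReal_zero]
    rw [D.kk_scale _ _ hw]
    refine H _ _ _ (by positivity) ?_
    rw [hw]
    nlinarith
  · simp only [e1, e2, sub_zero, one_mul, zero_mul, add_zero, add_sub_cancel]
    rw [kk_eq (((hd_of h1 θ).const_mul _).fun_add ((hd_cw φ θ).const_mul _))
      (((((hd_of h2 θ).const_mul _).fun_add ((dG θ).const_mul _)).const_mul _).fun_sub
        (((hd_of h3 θ).const_mul _).fun_sub ((hd_lin _ θ).const_mul _))), D.qq_b hb]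
    have h4 := hS (b s, θ, w) ⟨hb, hθ, by simpa using hw⟩
    have h5 : 0 ≤ S ^ 2 * (b s * (1 - b s) * m) :=
      mul_nonneg (sq_nonneg _) (mul_nonneg (mul_nonneg hb.1 (sub_nonneg.2 hb.2)) hm)
    have h6 := sq_nrm (cw φ θ)
    rw [norm_cw] at h6
    refine (add_pos_of_pos_of_nonneg h4 h5).trans_eq ?_
    simp only [cross, w1, Complex.mul_re, Complex.mul_im, Complex.add_re, Complex.add_im,
      Complex.neg_re, Complex.neg_im, Complex.ofReal_re, Complex.ofReal_im, Complex.I_re,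
      Complex.I_im]
    linear_combination (S ^ 2 * b s ^ 2 / 2) * h6
  · obtain ⟨o1, o2, o3⟩ := str_one δ ρ τ
    simp only [e1, e2, o1, o2, o3, sub_self, zero_mul, one_mul, mul_zero, Complex.ofReal_zero,
      zero_add, add_zero, ne_eq, OfNat.ofNat_ne_zero, not_false_eq_true, zero_pow, zero_sub,
      neg_neg]
    rw [kk_round D.δ0.le _ _ _ hw]
    refine half_pos (pow_pos (norm_pos_iff.2 fun h0 => ?_) 2)
    have h4 := congrArg norm (eq_neg_of_add_eq_zero_left h0)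
    have h5 := sqrt_pos.2 D.δ0
    have h6 : 2 * √δ ≤ (1 - c s) * S + c s * (2 * √δ) := by nlinarith [hc.2]
    rw [norm_neg, norm_mul, norm_mul, norm_cw, hw, Complex.norm_real, Complex.norm_real,
      Real.norm_of_nonneg h5.le, Real.norm_of_nonneg (by linarith)] at h4
    linarith

end Pool.Agent.Lib.MP_7ed551_gt
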