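import Pool.Agent.Lib.MP_7ed551_gt.Flow

/-! Hamiltonians on `ℂ × ℂˣ` that depend on `z₁` and on the argument of `z₂`. -/

open scoped ContDiff Topology
open Set Real Filter

namespace Pool.Agent.Lib.MP_7ed551_gt

section smooth
variable {E : Type} [NormedAddCommGroup E] [NormedSpace ℝ E] {n : WithTop ℕ∞}

@[fun_prop] theorem cd_re {f : E → ℂ} (hf : ContDiff ℝ n f) : ContDiff ℝ n fun x => (f x).re :=
  Complex.reCLM.contDiff.comp hf

@[fun_prop] theorem cd_im {f : E → ℂ} (hf : ContDiff ℝ n f) : ContDiff ℝ n fun x => (f x).im :=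
  Complex.imCLM.contDiff.comp hf

@[fun_prop] theorem cd_ofReal {f : E → ℝ} (hf : ContDiff ℝ n f) :
    ContDiff ℝ n fun x => (f x : ℂ) :=
  Complex.ofRealCLM.contDiff.comp hf

@[fun_prop] theorem cd_w1 {f g : E → ℂ} (hf : ContDiff ℝ n f) (hg : ContDiff ℝ n g) :
    ContDiff ℝ n fun x => w1 (f x) (g x) := by
  unfold w1
  fun_prop

theorem cd_mk {f g : E → ℝ} (hf : ContDiff ℝ n f) (hg : ContDiff ℝ n g) :
    ContDiff ℝ n fun x => (⟨f x, g x⟩ : ℂ) := by
  have : (fun x => (⟨f x, g x⟩ : ℂ)) = fun x => (f x : ℂ) + g x * Complex.I :=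
    funext fun x => Complex.mk_eq_add_mul_I _ _
  rw [this]
  fun_prop

/-- The derivative along a curve. -/
theorem along {F : Type} [NormedAddCommGroup F] [NormedSpace ℝ F] {f : E → F} {c : ℝ → E} {a : E}
    {r : ℝ} (hf : DifferentiableAt ℝ f (c r)) (hc : HasDerivAt c a r) :
    HasDerivAt (fun r => f (c r)) (fderiv ℝ f (c r) a) r :=
  hf.hasFDerivAt.comp_hasDerivAt r hc

end smooth

theorem hd_re {f : ℝ → ℂ} {f' : ℂ} {r : ℝ} (h : HasDerivAt f f' r) :
    HasDerivAt (fun r => (f r).re) f'.re r :=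
  Complex.reCLM.hasFDerivAt.comp_hasDerivAt r h

theorem hd_im {f : ℝ → ℂ} {f' : ℂ} {r : ℝ} (h : HasDerivAt f f' r) :
    HasDerivAt (fun r => (f r).im) f'.im r :=
  Complex.imCLM.hasFDerivAt.comp_hasDerivAt r h

theorem hd_w1 {f g : ℝ → ℂ} {f' g' : ℂ} {r : ℝ} (hf : HasDerivAt f f' r) (hg : HasDerivAt g g' r) :
    HasDerivAt (fun r => w1 (f r) (g r)) (w1 f' (g r) + w1 (f r) g') r := by
  refine (((hd_re hf).mul (hd_im hg)).sub ((hd_im hf).mul (hd_re hg))).congr_deriv ?_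
  simp only [w1]
  ring

theorem hd_mk {f g : ℝ → ℝ} {f' g' r : ℝ} (hf : HasDerivAt f f' r) (hg : HasDerivAt g g' r) :
    HasDerivAt (fun r => (⟨f r, g r⟩ : ℂ)) ⟨f', g'⟩ r := by
  have : (fun x => (⟨f x, g x⟩ : ℂ)) = fun x => (f x : ℂ) + g x * Complex.I :=
    funext fun x => Complex.mk_eq_add_mul_I _ _
  rw [this, Complex.mk_eq_add_mul_I]
  exact hf.ofReal_comp.add (hg.ofReal_comp.mul_const _)

theorem hd_exp (θ : ℝ) :
    HasDerivAt (fun θ : ℝ => Complex.exp (θ * Complex.I))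
      (Complex.exp (θ * Complex.I) * Complex.I) θ := by
  simpa using ((hasDerivAt_id θ).ofReal_comp.mul_const Complex.I).cexp

theorem per_of_exp {α : Type} {f : ℝ → α} (hf : Function.Periodic f (2 * π)) {a b : ℝ}
    (h : Complex.exp (a * Complex.I) = Complex.exp (b * Complex.I)) : f a = f b := by
  obtain ⟨n, hn⟩ := Complex.exp_eq_exp_iff_exists_int.1 h
  have h1 : a = b + n * (2 * π) := by simpa using congrArg Complex.im hn
  rw [h1, hf.int_mul n]

/-- The function of `(s, z₁, z₂)` given by a function of `(s, arg z₂, z₁)`. -/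
noncomputable def pol (F : ℝ × ℝ × ℂ → ℝ) (y : ℝ × (ℂ × ℂ)) : ℝ := F (y.1, Complex.arg y.2.2, y.2.1)

variable {F : ℝ × ℝ × ℂ → ℝ}

theorem pol_eq (hp : ∀ s θ z, F (s, θ + 2 * π, z) = F (s, θ, z)) (θ : ℝ) {y : ℝ × (ℂ × ℂ)}
    (hy : y.2.2 ≠ 0) : pol F y =
      F (y.1, θ + (Complex.log (y.2.2 * Complex.exp (-θ * Complex.I))).im, y.2.1) := by
  refine per_of_exp (f := fun a => F (y.1, a, y.2.1)) (fun a => hp _ _ _) ?_
  have h1 : (‖y.2.2‖ : ℂ) ≠ 0 := by simpa using hy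
  have h2 : ‖y.2.2 * Complex.exp (-θ * Complex.I)‖ = ‖y.2.2‖ := by
    rw [norm_mul, ← Complex.ofReal_neg, Complex.norm_exp_ofReal_mul_I, mul_one]
  refine mul_left_cancel₀ h1 ?_
  rw [Complex.norm_mul_exp_arg_mul_I, Complex.log_im, Complex.ofReal_add, add_mul, Complex.exp_add,
    mul_left_comm, ← h2, Complex.norm_mul_exp_arg_mul_I, mul_left_comm, ← Complex.exp_add]
  simp

theorem pol_mem {r θ : ℝ} (hr : 0 < r) :
    r * Complex.exp (θ * Complex.I) * Complex.exp (-θ * Complex.I) ∈ Complex.slitPlane := by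
  rw [mul_assoc, ← Complex.exp_add]
  simpa using hr

theorem pol_smooth (hF : ContDiff ℝ ∞ F) (hp : ∀ s θ z, F (s, θ + 2 * π, z) = F (s, θ, z)) :
    ContDiffOn ℝ ∞ (pol F) {y | y.2.2 ≠ 0} := by
  intro y hy
  have hU : IsOpen {y : ℝ × (ℂ × ℂ) | y.2.2 ≠ 0} := isOpen_ne_fun (by fun_prop) (by fun_prop)
  have h1 := pol_mem (θ := Complex.arg y.2.2) (norm_pos_iff.2 hy)
  rw [Complex.norm_mul_exp_arg_mul_I] at h1
  have h2 : ContDiffAt ℝ ∞ (fun x : ℝ × (ℂ × ℂ) =>
      (Complex.log (x.2.2 * Complex.exp (-Complex.arg y.2.2 * Complex.I))).im) y :=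
    Complex.imCLM.contDiff.contDiffAt.comp y
      (((Complex.contDiffAt_log h1).restrict_scalars ℝ).comp y
        (f := fun x : ℝ × (ℂ × ℂ) => x.2.2 * Complex.exp (-Complex.arg y.2.2 * Complex.I))
        (by fun_prop))
  refine ((hF.contDiffAt.comp y (contDiffAt_fst.prodMk
    (((contDiffAt_const (c := Complex.arg y.2.2)).add h2).prodMk
      contDiffAt_snd.fst))).congr_of_eventuallyEq ?_).contDiffWithinAt
  filter_upwards [hU.mem_nhds hy] with x hx
  exact pol_eq hp _ hx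

theorem pol_fderiv (hF : ContDiff ℝ ∞ F) (hp : ∀ s θ z, F (s, θ + 2 * π, z) = F (s, θ, z))
    (s θ : ℝ) (z : ℂ) {r : ℝ} (hr : 0 < r) (w : ℂ × ℂ) :
    fderiv ℝ (pol F) (s, z, r * Complex.exp (θ * Complex.I)) (0, w) =
      fderiv ℝ F (s, θ, z) (0, 0, w.1) +
        w1 (Complex.exp (θ * Complex.I)) w.2 / r * fderiv ℝ F (s, θ, z) (0, 1, 0) := by
  have hU : IsOpen {y : ℝ × (ℂ × ℂ) | y.2.2 ≠ 0} := isOpen_ne_fun (by fun_prop) (by fun_prop)
  have hy : ((s, z, r * Complex.exp (θ * Complex.I)) : ℝ × (ℂ × ℂ)) ∈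
      {y : ℝ × (ℂ × ℂ) | y.2.2 ≠ 0} :=
    mul_ne_zero (Complex.ofReal_ne_zero.2 hr.ne') (Complex.exp_ne_zero _)
  have hc : ∀ a v : ℂ, HasDerivAt (fun t : ℝ => a + t * v) v 0 := fun a v => by
    simpa using ((hasDerivAt_id (0 : ℝ)).ofReal_comp.mul_const v).const_add a
  have h1 := (hasDerivAt_const (0 : ℝ) s).prodMk
    ((hc z w.1).prodMk (hc (r * Complex.exp (θ * Complex.I)) w.2))
  have h2 := along (f := pol F) (by
    simpa using ((pol_smooth hF hp).contDiffAt (hU.mem_nhds hy)).differentiableAt (by simp)) h1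
  have h3 := hd_im (((hc (r * Complex.exp (θ * Complex.I)) w.2).mul_const
    (Complex.exp (-θ * Complex.I))).clog_real (by simpa using pol_mem (θ := θ) hr))
  have h4 := along (f := F) (hF.differentiable (by simp) _)
    ((hasDerivAt_const (0 : ℝ) s).prodMk ((h3.const_add θ).prodMk (hc z w.1)))
  have h5 : r * Complex.exp (θ * Complex.I) * Complex.exp (-θ * Complex.I) = r := by
    rw [mul_assoc, ← Complex.exp_add]
    simp
  have h6 := h2.unique (h4.congr_of_eventuallyEq (by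
    filter_upwards [h1.continuousAt.preimage_mem_nhds (hU.mem_nhds (by simpa using hy))] with t ht
    exact pol_eq hp θ ht))
  simp only [Complex.ofReal_zero, zero_mul, add_zero, h5, Complex.log_im,
    Complex.arg_ofReal_of_nonneg hr.le] at h6
  rw [h6, ← smul_eq_mul (w1 _ _ / r), ← map_smul, ← map_add]
  congr 1
  refine Prod.ext (by simp) (Prod.ext ?_ (by simp))
  have h7 : Complex.exp (-θ * Complex.I) = (starRingEnd ℂ) (Complex.exp (θ * Complex.I)) := by
    rw [← Complex.exp_conj]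
    simp
  simp only [h7, Complex.div_ofReal_im, Complex.mul_im, Complex.conj_re, Complex.conj_im, w1,
    Prod.snd_add, Prod.fst_add, Prod.smul_mk, smul_eq_mul]
  ring

theorem hamIso_polar (hF : ContDiff ℝ ∞ F) (hp : ∀ s θ z, F (s, θ + 2 * π, z) = F (s, θ, z))
    {K : Set (ℝ × ℂ)} (hK : IsCompact K) {z : ℝ × ℝ × ℂ → ℂ} {h : ℝ × ℝ × ℂ → ℝ}
    (hz : Continuous z) (hh : Continuous h) (pos : ∀ x ∈ K, ∀ s ∈ Icc (0 : ℝ) 1, 0 < h (s, x))
    (hd : ∀ x : ℝ × ℂ, ∀ s, ∃ z', HasDerivAt (fun s => z (s, x)) z' s ∧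
      (∀ y, w1 z' y = fderiv ℝ F (s, x.1, z (s, x)) (0, 0, y)) ∧
      HasDerivAt (fun s => h (s, x)) (fderiv ℝ F (s, x.1, z (s, x)) (0, 1, 0)) s) :
    HamIso ((fun x => (z (0, x), √(2 * h (0, x)) * Complex.exp (x.1 * Complex.I))) '' K)
      ((fun x => (z (1, x), √(2 * h (1, x)) * Complex.exp (x.1 * Complex.I))) '' K) := by
  refine hamIso_of_curves hK (isOpen_ne_fun (by fun_prop) (by fun_prop)) (pol_smooth hF hp)
    (Γ := fun s x => (z (s, x), √(2 * h (s, x)) * Complex.exp (x.1 * Complex.I))) (by fun_prop)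
    (fun x hx s hs => ?_) fun x hx s hs => ?_
  · have := pos x hx s hs
    exact mul_ne_zero (Complex.ofReal_ne_zero.2 (by positivity)) (Complex.exp_ne_zero _)
  · have h0 := pos x hx s hs
    have h1 : 0 < √(2 * h (s, x)) := by positivity
    obtain ⟨z', h2, h3, h4⟩ := hd x s
    refine ⟨_, h2.prodMk ((((h4.const_mul 2).sqrt (by positivity)).ofReal_comp).mul_const _),
      fun w => ?_⟩
    rw [pol_fderiv hF hp _ _ _ h1, ← h3]
    simp only [om, w1, Complex.mul_re, Complex.mul_im, Complex.ofReal_re, Complex.ofReal_im]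
    field_simp
    ring

end Pool.Agent.Lib.MP_7ed551_gt
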