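import Pool.Agent.Lib.MP_7ed551_gt.Defs

/-! From a compact family of integral curves of a local Hamiltonian to a Hamiltonian isotopy. -/

open scoped ContDiff Topology Manifold NNReal
open Set Real Filter

namespace Pool.Agent.Lib.MP_7ed551_gt

/-- The vector dual to a covector. -/
noncomputable def sharp (L : ℝ × (ℂ × ℂ) →L[ℝ] ℝ) : ℂ × ℂ :=
  (L (0, Complex.I, 0) • (1 : ℂ) - L (0, 1, 0) • Complex.I,
    L (0, 0, Complex.I) • (1 : ℂ) - L (0, 0, 1) • Complex.I)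

theorem om_sharp (L : ℝ × (ℂ × ℂ) →L[ℝ] ℝ) (w : ℂ × ℂ) : om (sharp L) w = L (0, w) := by
  have h : ((0, w) : ℝ × (ℂ × ℂ)) = w.1.re • (0, 1, 0) + w.1.im • (0, Complex.I, 0) +
      w.2.re • (0, 0, 1) + w.2.im • (0, 0, Complex.I) := by
    ext <;> simp
  rw [h, map_add, map_add, map_add, map_smul, map_smul, map_smul, map_smul]
  simp [om, w1, sharp]
  ring

theorem om_ext {v v' : ℂ × ℂ} (h : ∀ w, om v w = om v' w) : v = v' := by
  have h1 := h (1, 0)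
  have h2 := h (Complex.I, 0)
  have h3 := h (0, 1)
  have h4 := h (0, Complex.I)
  simp [om, w1] at h1 h2 h3 h4
  exact Prod.ext (Complex.ext h2 h1) (Complex.ext h4 h3)

theorem fderiv_slice {H : ℝ × (ℂ × ℂ) → ℝ} {t : ℝ} {y : ℂ × ℂ} (h : DifferentiableAt ℝ H (t, y))
    (w : ℂ × ℂ) : fderiv ℝ (fun y => H (t, y)) y w = fderiv ℝ H (t, y) (0, w) := by
  have h1 := h.hasFDerivAt.comp y (hasFDerivAt_prodMk_right t y)
  rw [show (fun y => H (t, y)) = H ∘ fun y => (t, y) from rfl, h1.fderiv]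
  simp

theorem exists_flow {H : ℝ × (ℂ × ℂ) → ℝ} (hH : ContDiff ℝ ∞ H) (hc : HasCompactSupport H) :
    ∃ (K : ℝ≥0) (φ : ℝ → ℂ × ℂ → ℂ × ℂ),
      (∀ t, LipschitzWith K fun y => sharp (fderiv ℝ H (t, y))) ∧ (∀ x, φ 0 x = x) ∧
      ∀ x, ∀ t ∈ Icc (0 : ℝ) 1,
        HasDerivWithinAt (fun s => φ s x) (sharp (fderiv ℝ H (t, φ t x))) (Icc 0 1) t := by
  have h1 : ContDiff ℝ ∞ (fderiv ℝ H) := hH.fderiv_right (m := ∞) (by simp)
  have h2 : ContDiff ℝ ∞ fun x => sharp (fderiv ℝ H x) := by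
    unfold sharp
    fun_prop
  have h3 : HasCompactSupport fun x => sharp (fderiv ℝ H x) :=
    (hc.fderiv ℝ).comp_left (g := sharp) (by simp [sharp])
  obtain ⟨K, hK⟩ := h2.lipschitzWith_of_hasCompactSupport h3 (by simp)
  obtain ⟨C, hC⟩ := h3.exists_bound_of_continuous h2.continuous
  have hL : ∀ t, LipschitzWith K fun y => sharp (fderiv ℝ H (t, y)) := fun t => by
    simpa [Function.comp_def] using hK.comp (LipschitzWith.prodMk_left t)
  have h4 : ∀ x, ∃ α : ℝ → ℂ × ℂ, α 0 = x ∧ ∀ t ∈ Icc (0 : ℝ) 1,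
      HasDerivWithinAt α (sharp (fderiv ℝ H (t, α t))) (Icc 0 1) t := fun x => by
    have h5 : IsPicardLindelof (fun t y => sharp (fderiv ℝ H (t, y)))
        (⟨0, left_mem_Icc.2 zero_le_one⟩ : Icc (0 : ℝ) 1) x C.toNNReal 0 C.toNNReal K :=
      ⟨fun t _ => (hL t).lipschitzOnWith,
        fun y _ => (h2.continuous.comp (Continuous.prodMk_left y)).continuousOn,
        fun t _ y _ => (hC _).trans (Real.le_coe_toNNReal C), by simp⟩
    exact h5.exists_eq_forall_mem_Icc_hasDerivWithinAt₀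
  choose α h0 hα using h4
  exact ⟨K, fun t x => α x t, hL, h0, hα⟩

theorem hamIso_of_curves {X : Type} [TopologicalSpace X] {K : Set X} (hK : IsCompact K)
    {U : Set (ℝ × (ℂ × ℂ))} (hU : IsOpen U) {G : ℝ × (ℂ × ℂ) → ℝ} (hG : ContDiffOn ℝ ∞ G U)
    {Γ : ℝ → X → ℂ × ℂ} (hΓ : Continuous fun q : ℝ × X => Γ q.1 q.2)
    (hm : ∀ x ∈ K, ∀ s ∈ Icc (0 : ℝ) 1, (s, Γ s x) ∈ U)
    (hd : ∀ x ∈ K, ∀ s ∈ Icc (0 : ℝ) 1, ∃ v, HasDerivAt (fun s => Γ s x) v s ∧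
      ∀ w, om v w = fderiv ℝ G (s, Γ s x) (0, w)) :
    HamIso (Γ 0 '' K) (Γ 1 '' K) := by
  have hT : IsCompact ((fun q : ℝ × X => (q.1, Γ q.1 q.2)) '' (Icc (0 : ℝ) 1 ×ˢ K)) :=
    (isCompact_Icc.prod hK).image (continuous_fst.prodMk hΓ)
  obtain ⟨T, hT1, hT2, hT3⟩ := exists_compact_between hT hU (by
    rintro _ ⟨q, hq, rfl⟩
    exact hm _ hq.2 _ hq.1)
  obtain ⟨χ, h1, h0, -⟩ := exists_contMDiffMap_one_nhds_of_subset_interior (n := ⊤)
    𝓘(ℝ, ℝ × (ℂ × ℂ)) hT.isClosed hT2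
  have hχ : ContDiff ℝ ∞ χ := χ.contMDiff.contDiff
  have hH : ContDiff ℝ ∞ fun x => χ x * G x := by
    refine contDiff_iff_contDiffAt.2 fun x => ?_
    by_cases hx : x ∈ T
    · exact hχ.contDiffAt.mul (hG.contDiffAt (hU.mem_nhds (hT3 hx)))
    · refine (contDiffAt_const (c := 0)).congr_of_eventuallyEq ?_
      filter_upwards [hT1.isClosed.isOpen_compl.mem_nhds hx] with y hy
      rw [h0 y hy, zero_mul]
  have hc : HasCompactSupport fun x => χ x * G x :=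
    HasCompactSupport.intro hT1 fun y hy => by rw [h0 y hy, zero_mul]
  obtain ⟨L, φ, hL, hφ0, hφ⟩ := exists_flow hH hc
  have key : ∀ x ∈ K, φ 1 (Γ 0 x) = Γ 1 x := by
    intro x hx
    refine ODE_solution_unique (v := fun t y => sharp (fderiv ℝ (fun x => χ x * G x) (t, y))) hL
      (f := fun s => φ s (Γ 0 x)) (g := fun s => Γ s x) (a := 0) (b := 1)
      (fun t ht => (hφ _ t ht).continuousWithinAt)
      (fun t ht => (hφ _ t (Ico_subset_Icc_self ht)).mono_of_mem_nhdsWithin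
        (Icc_mem_nhdsGE_of_mem ht))
      (hΓ.comp (Continuous.prodMk_left x)).continuousOn (fun t ht => ?_) (hφ0 _)
      (right_mem_Icc.2 zero_le_one)
    obtain ⟨v, hv, hv'⟩ := hd x hx t (Ico_subset_Icc_self ht)
    have h2 : (fun x => χ x * G x) =ᶠ[𝓝 (t, Γ t x)] G := by
      have h4 : (t, Γ t x) ∈ (fun q : ℝ × X => (q.1, Γ q.1 q.2)) '' (Icc (0 : ℝ) 1 ×ˢ K) :=
        ⟨(t, x), ⟨Ico_subset_Icc_self ht, hx⟩, rfl⟩
      filter_upwards [h1.filter_mono (nhds_le_nhdsSet h4)] with y hy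
      rw [hy, one_mul]
    have h3 : v = sharp (fderiv ℝ (fun x => χ x * G x) (t, Γ t x)) :=
      om_ext fun w => by rw [om_sharp, hv', h2.fderiv_eq (𝕜 := ℝ)]
    exact (h3 ▸ hv).hasDerivWithinAt
  refine ⟨_, φ, hH, hc, hφ0, fun x t ht => ⟨_, hφ x t ht, fun w => ?_⟩, ?_⟩
  · rw [om_sharp, fderiv_slice (hH.differentiable (by simp) _)]
  · rw [image_image]
    exact image_congr key

end Pool.Agent.Lib.MP_7ed551_gt
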