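import Pool.Agent.Lib.MP_7ed551_gt.Chek

/-! The dichotomy. -/

open scoped ContDiff Topology
open Set Real Filter

namespace Pool.Agent.Lib.MP_7ed551_gt

theorem deriv_per {F : Type} [NormedAddCommGroup F] [NormedSpace ℝ F] {f : ℝ → F} {d : F}
    (h : ∀ θ, f (θ + 2 * π) = f θ + d) (θ : ℝ) : deriv f (θ + 2 * π) = deriv f θ := by
  rw [← deriv_comp_add_const, funext h, deriv_add_const]

theorem deriv_per0 {F : Type} [NormedAddCommGroup F] [NormedSpace ℝ F] {f : ℝ → F}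
    (h : ∀ θ, f (θ + 2 * π) = f θ) (θ : ℝ) : deriv f (θ + 2 * π) = deriv f θ :=
  deriv_per (d := 0) (fun θ => by rw [h, add_zero]) θ

theorem dichotomy {δ lam : ℝ} {p : ℝ → ℂ} {ρ τ κ B : ℝ → ℝ} (hδ : 0 < δ) (h : π * δ = 2 * lam)
    (sp : ContDiff ℝ ∞ p) (sρ : ContDiff ℝ ∞ ρ) (sτ : ContDiff ℝ ∞ τ) (sκ : ContDiff ℝ ∞ κ)
    (sB : ContDiff ℝ ∞ B) (ρ0 : ∀ θ, 0 < ρ θ) (det : ∀ θ, ρ θ * κ θ = δ)
    (pp : ∀ θ, p (θ + 2 * π) = p θ) (pρ : ∀ θ, ρ (θ + 2 * π) = ρ θ)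
    (pτ : ∀ θ, τ (θ + 2 * π) = τ θ) (pκ : ∀ θ, κ (θ + 2 * π) = κ θ)
    (pB : ∀ θ, B (θ + 2 * π) = B θ + π * δ)
    (pos : ∀ θ w, ‖w‖ = 1 → 0 < kk p ρ τ κ B θ w) :
    HamIso (TT p ρ τ κ B) (clifford lam) ∨ HamIso (TT p ρ τ κ B) (chekanov lam) := by
  have k1 := sp.continuous
  have k2 := cont_deriv sp
  have k3 := cont_deriv sB
  have k5 := sρ.continuous
  have k6 := sτ.continuous
  have k7 := sκ.continuous
  have k8 := cont_deriv sρ
  have k9 := cont_deriv sτ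
  have k10 := cont_deriv sκ
  obtain ⟨μ, sμ, pμ, hμ⟩ := select (k := fun θ v => v.1 ^ 2 * (deriv B θ - w1 (p θ) (deriv p θ) / 2) +
      v.1 * w1 (deriv p θ) (NN (ρ θ) (τ θ) (κ θ) v.2) + qq ρ τ κ θ v.2)
    (by simp only [qq, w1, NN]; fun_prop)
    (fun θ => by
      simp only [qq, pp, pρ, pτ, pκ, deriv_per pB, deriv_per0 pp, deriv_per0 pρ, deriv_per0 pτ,
        deriv_per0 pκ])
    (fun θ t v => by
      simp only [qq, w1, NN, Prod.smul_fst, Prod.smul_snd, smul_eq_mul, Complex.smul_re,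
        Complex.smul_im]
      ring)
    fun θ => by
      obtain ⟨μ, hμ⟩ := slemma (c := deriv B θ - w1 (p θ) (deriv p θ) / 2)
        (l := -(deriv p θ).im * ρ θ) (m := (deriv p θ).re * κ θ - (deriv p θ).im * τ θ) (a := 0)
        (b := (deriv ρ θ * κ θ - deriv κ θ * ρ θ) / 2)
        (d := (deriv τ θ * κ θ - deriv κ θ * τ θ) / 2) fun x y hxy => by
          refine (pos θ ⟨x, y⟩ (by rw [Complex.norm_eq_sqrt_sq_add_sq, hxy, sqrt_one])).trans_eq ?_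
          simp only [kk, w1, NN]
          ring
      refine ⟨μ, fun v hv => (hμ v.1 v.2.re v.2.im ?_).trans_eq ?_⟩
      · by_contra h0
        push Not at h0
        exact hv (Prod.ext h0.1 (Complex.ext h0.2.1 h0.2.2))
      · simp only [qq, w1, NN, sq_nrm]
        ring
  obtain ⟨M, sM, dM, pM⟩ := prim sμ pμ
  obtain ⟨ν, hν⟩ : ∃ ν, ν * (2 * π) = (∫ t in (0 : ℝ)..2 * π, μ t) + π * δ :=
    ⟨_, div_mul_cancel₀ _ two_pi_pos.ne'⟩
  have dE : ∀ θ, HasDerivAt (fun θ => M θ - ν * θ) (μ θ - ν) θ := fun θ =>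
    (dM θ).fun_sub (hd_lin ν θ)
  have D : Dat δ p ρ τ κ (fun θ => B θ + (M θ - ν * θ)) fun θ => M θ - ν * θ :=
    ⟨hδ, sp, sρ, sτ, sκ, by fun_prop, by fun_prop, ρ0, det, pp, pρ, pτ,
      fun θ => by simp only [pB, pM]; linarith, fun θ => by simp only [pM]; linarith⟩
  have key : ∀ θ s w, (s, w) ≠ 0 → ν * (‖w‖ ^ 2 - s ^ 2) <
      hk p ρ τ κ (fun θ => B θ + (M θ - ν * θ)) (fun θ => M θ - ν * θ) θ s w := by
    intro θ s w hv
    have h1 := hμ θ (s, w) hv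
    rw [hk, ((hd_of sB θ).fun_add (dE θ)).deriv, (dE θ).deriv]
    simp only at h1
    linarith
  rcases le_total 0 ν with h0 | h0
  · left
    simpa using D.clifford h fun θ s w hw hs =>
      (mul_nonneg h0 (sub_nonneg.2 hs)).trans_lt (key θ s w fun e => hw (congrArg Prod.snd e))
  · right
    simpa using D.chekanov h fun θ s w hs hw =>
      (mul_nonneg_of_nonpos_of_nonpos h0 (sub_nonpos.2 hw)).trans_lt
        (key θ s w fun e => hs (congrArg Prod.fst e))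

end Pool.Agent.Lib.MP_7ed551_gt
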