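import Mathlib

/-!
Lagrangian tori in `ℝ⁴ = ℂ²`: symplectic form, Hamiltonian isotopy, monotonicity, the Clifford and
the Chekanov torus.
-/

open scoped ContDiff
open Set Real

namespace Pool.Agent.Lib.MP_7ed551_gt

/-- The area form `dx ∧ dy` of `ℂ`. -/
def w1 (a b : ℂ) : ℝ := a.re * b.im - a.im * b.re

/-- The standard symplectic form `dx₁ ∧ dy₁ + dx₂ ∧ dy₂` of `ℂ²`. -/
def om (v w : ℂ × ℂ) : ℝ := w1 v.1 w.1 + w1 v.2 w.2

/-- `L'` is the image of `L` under the time one map of the flow `φ` of a smooth compactly supported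
time dependent Hamiltonian `H`: the velocity `v` of each orbit satisfies `ω₀(v, ·) = dH_t`. -/
def HamIso (L L' : Set (ℂ × ℂ)) : Prop :=
  ∃ (H : ℝ × (ℂ × ℂ) → ℝ) (φ : ℝ → ℂ × ℂ → ℂ × ℂ), ContDiff ℝ ∞ H ∧ HasCompactSupport H ∧
    (∀ x, φ 0 x = x) ∧
    (∀ x, ∀ t ∈ Icc (0 : ℝ) 1, ∃ v, HasDerivWithinAt (fun s => φ s x) v (Icc 0 1) t ∧
      ∀ w, om v w = fderiv ℝ (fun y => H (t, y)) (φ t x) w) ∧
    φ 1 '' L = L'

/-- The parametrised surface `f` is Lagrangian. -/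
def IsLag (f : ℝ × ℝ → ℂ × ℂ) : Prop :=
  ∀ x, om (fderiv ℝ f x (1, 0)) (fderiv ℝ f x (0, 1)) = 0

/-- The complex determinant of the tangent frame of `f`. -/
noncomputable def fdet (f : ℝ × ℝ → ℂ × ℂ) (x : ℝ × ℝ) : ℂ :=
  (fderiv ℝ f x (1, 0)).1 * (fderiv ℝ f x (0, 1)).2 -
    (fderiv ℝ f x (1, 0)).2 * (fderiv ℝ f x (0, 1)).1

/-- Monotonicity of the torus parametrised by the doubly `2 π` periodic map `f`: for every loop
`f ∘ c` on the torus, the integral of the Liouville form (the area of any disc with this boundary)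
is `lam` times the Maslov index, the winding number of `fdet ^ 2` along the loop, computed from a
continuous argument `ϑ`. -/
def IsMonotone (f : ℝ × ℝ → ℂ × ℂ) (lam : ℝ) : Prop :=
  ∀ (c : ℝ → ℝ × ℝ) (ϑ : ℝ → ℝ), ContDiff ℝ 1 c → Continuous ϑ →
    (∃ m n : ℤ, c 1 = c 0 + (2 * π * m, 2 * π * n)) →
    (∀ t, ∃ R : ℝ, 0 < R ∧ fdet f (c t) ^ 2 = R * Complex.exp (ϑ t * Complex.I)) →
    ∫ t in (0 : ℝ)..1, om (f (c t)) (deriv (fun s => f (c s)) t) / 2 =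
      lam * ((ϑ 1 - ϑ 0) / (2 * π))

/-- The Clifford torus `|z₁| = |z₂| = r`, `π r² = 2 lam`. -/
def clifford (lam : ℝ) : Set (ℂ × ℂ) := {z | π * ‖z.1‖ ^ 2 = 2 * lam ∧ π * ‖z.2‖ ^ 2 = 2 * lam}

/-- The Chekanov torus `|z₁| = |z₂|`, `z₁ z₂ ∈ γ`, where `γ` is the image of the circle with radius
`r` and centre `2 r`, `π r² = 2 lam`, under `ζ ↦ |ζ| ζ`. -/
def chekanov (lam : ℝ) : Set (ℂ × ℂ) :=
  {z | ‖z.1‖ = ‖z.2‖ ∧ ∃ ζ : ℂ, ‖ζ - 2 * √(2 * lam / π)‖ = √(2 * lam / π) ∧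
    z.1 * z.2 = ‖ζ‖ * ζ}

/-- The surface `(θ, φ) ↦ (p θ + (ρ θ cos φ + τ θ sin φ) + i κ θ sin φ, r (θ, φ) e^{i θ})`: its part
in the page `arg z₂ = θ` is a graph over an ellipse with centre `p θ`. -/
noncomputable def ellTorus (p : ℝ → ℂ) (ρ τ κ : ℝ → ℝ) (r : ℝ × ℝ → ℝ) (x : ℝ × ℝ) : ℂ × ℂ :=
  (p x.1 + ⟨ρ x.1 * cos x.2 + τ x.1 * sin x.2, κ x.1 * sin x.2⟩,
    r x * Complex.exp (x.1 * Complex.I))

end Pool.Agent.Lib.MP_7ed551_gt
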