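import Pool.Agent.Lib.MP_7ed551_gt.Fin

/-!
A monotone Lagrangian torus in `ℂ × ℂˣ` whose parts in the pages `arg z₂ = θ` are graphs over
ellipses is Hamiltonian isotopic to the Clifford torus or to the Chekanov torus.

This was a hand-in (by helper40). It is a special case of the hand-in `Fibred` and is kept here
only as library material; its former claim is recorded in `departures/helper55.md`.
-/

open scoped ContDiff
open Set Real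

namespace Pool.Agent.Lib.MP_7ed551_gt.EllipticSlices

open Pool.Agent.Lib.MP_7ed551_gt

theorem result (p : ℝ → ℂ) (ρ τ κ : ℝ → ℝ) (r : ℝ × ℝ → ℝ) (lam : ℝ)
    (sp : ContDiff ℝ ∞ p) (sρ : ContDiff ℝ ∞ ρ) (sτ : ContDiff ℝ ∞ τ) (sκ : ContDiff ℝ ∞ κ)
    (sr : ContDiff ℝ ∞ r)
    (pp : ∀ θ, p (θ + 2 * π) = p θ) (pρ : ∀ θ, ρ (θ + 2 * π) = ρ θ)
    (pτ : ∀ θ, τ (θ + 2 * π) = τ θ) (pκ : ∀ θ, κ (θ + 2 * π) = κ θ)
    (pr1 : ∀ θ φ, r (θ + 2 * π, φ) = r (θ, φ)) (pr2 : ∀ θ φ, r (θ, φ + 2 * π) = r (θ, φ))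
    (ρ0 : ∀ θ, 0 < ρ θ) (κ0 : ∀ θ, 0 < κ θ) (r0 : ∀ x, 0 < r x) (hl : 0 < lam)
    (lag : IsLag (ellTorus p ρ τ κ r)) (mono : IsMonotone (ellTorus p ρ τ κ r) lam) :
    HamIso (range (ellTorus p ρ τ κ r)) (clifford lam) ∨
      HamIso (range (ellTorus p ρ τ κ r)) (chekanov lam) :=
  Inp.main ⟨sp, sρ, sτ, sκ, sr, pp, pρ, pτ, pκ, pr1, pr2, ρ0, κ0, r0, lag⟩ hl mono

end Pool.Agent.Lib.MP_7ed551_gt.EllipticSlices
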