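import Pool.Agent.Lib.MP_7ed551_gt.Inp

/-! A monotone torus with elliptic slices is a suspension with the right period. -/

open scoped ContDiff Topology
open Set Real Filter

namespace Pool.Agent.Lib.MP_7ed551_gt

variable {p : ℝ → ℂ} {ρ τ κ : ℝ → ℝ} {r : ℝ × ℝ → ℝ} {δ lam : ℝ}

theorem ec_arg {w : ℂ} (hw : ‖w‖ = 1) : ec (Complex.arg w) = w := by
  have h : w ≠ 0 := by
    rintro rfl
    simp at hw
  apply Complex.ext <;> simp [ec, Complex.cos_arg h, Complex.sin_arg, hw]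

namespace Inp

theorem height (D : Inp p ρ τ κ r) (det : ∀ θ, ρ θ * κ θ = δ) : ∃ (B : ℝ → ℝ) (d : ℝ),
    ContDiff ℝ ∞ B ∧ (∀ θ, B (θ + 2 * π) = B θ + d) ∧
      ∀ θ φ, kk p ρ τ κ B θ (ec φ) = r (θ, φ) ^ 2 / 2 := by
  have h1 := D.sp
  have h2 := D.sρ
  have h3 := D.sτ
  have h4 := D.sκ
  have h5 := D.sr
  obtain ⟨B, sB, dB, pB⟩ := prim
    (f := fun θ => r (θ, 0) ^ 2 / 2 - kk p ρ τ κ (fun _ => 0) θ (ec 0))
    (by unfold kk; fun_prop) fun θ => by
      simp only [kk, D.pp, D.pρ, D.pτ, D.pκ, D.pr1, deriv_per0 D.pp, deriv_per0 D.pρ,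
        deriv_per0 D.pτ, deriv_per0 D.pκ, deriv_const]
  refine ⟨B, _, sB, pB, fun θ φ => ?_⟩
  have h6 : deriv ρ θ * κ θ + ρ θ * deriv κ θ = 0 := by
    have := (hd_of h2 θ).fun_mul (hd_of h4 θ)
    rw [funext det] at this
    exact this.unique (hasDerivAt_const _ _)
  have h7 : ∀ φ, HasDerivAt (fun φ => r (θ, φ) ^ 2 / 2 - kk p ρ τ κ (fun _ => 0) θ (ec φ)) 0 φ := by
    intro φ
    have n1 := hd_NNw (ρ θ) (τ θ) (κ θ) (hd_ec φ)
    have n2 := hd_NNw (deriv ρ θ) (deriv τ θ) (deriv κ θ) (hd_ec φ)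
    refine ((((along (h5.differentiable (by simp) _) (hd_r θ φ)).fun_pow 2).div_const 2).fun_sub
      (((hd_w1 (hasDerivAt_const φ _) n1).const_add _).fun_add
        ((hd_w1 n2 n1).div_const 2))).congr_deriv ?_
    have h8 := D.lag' θ φ
    simp only [w1, NN, Complex.add_re, Complex.add_im, Complex.zero_re, Complex.zero_im] at h8 ⊢
    norm_num
    linear_combination -h8 - ((ed φ).re * (ec φ).im - (ed φ).im * (ec φ).re) / 2 * h6
  have h8 := is_const_of_deriv_eq_zero (fun φ => (h7 φ).differentiableAt)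
    (fun φ => (h7 φ).deriv) φ 0
  simp only [kk, (dB θ).deriv, deriv_const] at h8 ⊢
  linarith

theorem period (D : Inp p ρ τ κ r) (hm : IsMonotone (ellTorus p ρ τ κ r) lam) {B : ℝ → ℝ}
    (sB : ContDiff ℝ ∞ B) (hB : ∀ θ φ, kk p ρ τ κ B θ (ec φ) = r (θ, φ) ^ 2 / 2) :
    B (2 * π) - B 0 = 2 * lam := by
  have h := D.loop hm (0, 0) (1, 0) (Or.inl rfl)
    (F := fun t => B t + w1 (p t) (NN (ρ t) (τ t) (κ t) (ec 0)) / 2) fun t => by
      refine ((hd_of sB t).fun_add ((hd_w1 (hd_of D.sp t)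
        (hd_NN (hd_of D.sρ t) (hd_of D.sτ t) (hd_of D.sκ t) _)).div_const 2)).congr_deriv ?_
      have h1 := hB t 0
      simp only [Prod.smul_mk, mul_zero, Prod.mk_add_mk, add_zero, zero_add, smul_eq_mul, mul_one,
        D.d1, ell_eq, om, w1, kk, Complex.mul_re, Complex.mul_im, Complex.add_re,
        Complex.add_im, Complex.ofReal_re, Complex.ofReal_im, Complex.I_re, Complex.I_im] at h1 ⊢
      linear_combination h1 - r (t, 0) ^ 2 / 2 * exp_sq t
  have h1 := D.pp 0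
  have h2 := D.pρ 0
  have h3 := D.pτ 0
  have h4 := D.pκ 0
  rw [zero_add] at h1 h2 h3 h4
  simp only [h1, h2, h3, h4] at h
  linarith

theorem range_eq (D : Inp p ρ τ κ r) {B : ℝ → ℝ}
    (hB : ∀ θ φ, kk p ρ τ κ B θ (ec φ) = r (θ, φ) ^ 2 / 2) :
    range (ellTorus p ρ τ κ r) = TT p ρ τ κ B := by
  have h1 : ∀ θ φ, √(2 * kk p ρ τ κ B θ (ec φ)) = r (θ, φ) := fun θ φ => by
    rw [hB, mul_div_cancel₀ _ two_ne_zero, sqrt_sq (D.r0 _).le]
  ext z
  constructor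
  · rintro ⟨⟨θ, φ⟩, rfl⟩
    obtain ⟨θ', hθ, e⟩ := exists_angle (Complex.exp (θ * Complex.I))
    rw [Complex.norm_exp_ofReal_mul_I, Complex.ofReal_one, one_mul] at e
    have h2 := per_of_exp (f := fun θ => ellTorus p ρ τ κ r (θ, φ))
      (fun θ => by simpa using D.per1 (θ, φ)) e
    refine ⟨(θ', ec φ), ⟨hθ, by simpa using norm_ec φ⟩, ?_⟩
    simp only [h1, h2]
    rfl
  · rintro ⟨⟨θ, w⟩, hx, rfl⟩
    have h2 : ‖w‖ = 1 := by simpa using hx.2
    refine ⟨(θ, Complex.arg w), ?_⟩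
    simp only [ell_eq, ← h1, ec_arg h2]

theorem main (D : Inp p ρ τ κ r) (hl : 0 < lam) (hm : IsMonotone (ellTorus p ρ τ κ r) lam) :
    HamIso (range (ellTorus p ρ τ κ r)) (clifford lam) ∨
      HamIso (range (ellTorus p ρ τ κ r)) (chekanov lam) := by
  have h1 : π * (2 * lam / π) = 2 * lam := mul_div_cancel₀ _ pi_ne_zero
  have det : ∀ θ, ρ θ * κ θ = 2 * lam / π := fun θ =>
    mul_left_cancel₀ pi_ne_zero ((D.area hm θ).trans h1.symm)
  obtain ⟨B, d, sB, pB, hB⟩ := D.height det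
  have h2 := D.period hm sB hB
  have h3 := pB 0
  rw [zero_add] at h3
  rw [D.range_eq hB]
  refine dichotomy (by positivity) h1 D.sp D.sρ D.sτ D.sκ sB D.ρ0 det D.pp D.pρ D.pτ D.pκ
    (fun θ => by rw [pB]; linarith) fun θ w hw => ?_
  have := D.r0 (θ, Complex.arg w)
  rw [← ec_arg hw, hB]
  positivity

end Inp

end Pool.Agent.Lib.MP_7ed551_gt
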