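import Pool.Agent.Lib.MP_7ed551_gt.Dich

/-! The tangent frame, the Maslov index and the periods of a torus with elliptic slices. -/

open scoped ContDiff Topology ComplexConjugate
open Set Real Filter

namespace Pool.Agent.Lib.MP_7ed551_gt

/-- The point of the unit circle. -/
noncomputable def ec (φ : ℝ) : ℂ := ⟨cos φ, sin φ⟩

/-- Its derivative. -/
noncomputable def ed (φ : ℝ) : ℂ := ⟨-sin φ, cos φ⟩

theorem hd_ec (φ : ℝ) : HasDerivAt ec (ed φ) φ := hd_mk (hasDerivAt_cos φ) (hasDerivAt_sin φ)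

theorem norm_ec (φ : ℝ) : ‖ec φ‖ = 1 := by
  rw [Complex.norm_eq_sqrt_sq_add_sq, ec, cos_sq_add_sin_sq, sqrt_one]

theorem ed_eq (φ : ℝ) : ed φ = Complex.I * Complex.exp (φ * Complex.I) := by
  apply Complex.ext <;> simp [ed, Complex.exp_ofReal_mul_I_re, Complex.exp_ofReal_mul_I_im]

/-- The standing assumptions. -/
structure Inp (p : ℝ → ℂ) (ρ τ κ : ℝ → ℝ) (r : ℝ × ℝ → ℝ) : Prop where
  sp : ContDiff ℝ ∞ p
  sρ : ContDiff ℝ ∞ ρ
  sτ : ContDiff ℝ ∞ τ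
  sκ : ContDiff ℝ ∞ κ
  sr : ContDiff ℝ ∞ r
  pp : ∀ θ, p (θ + 2 * π) = p θ
  pρ : ∀ θ, ρ (θ + 2 * π) = ρ θ
  pτ : ∀ θ, τ (θ + 2 * π) = τ θ
  pκ : ∀ θ, κ (θ + 2 * π) = κ θ
  pr1 : ∀ θ φ, r (θ + 2 * π, φ) = r (θ, φ)
  pr2 : ∀ θ φ, r (θ, φ + 2 * π) = r (θ, φ)
  ρ0 : ∀ θ, 0 < ρ θ
  κ0 : ∀ θ, 0 < κ θ
  r0 : ∀ x, 0 < r x
  lag : IsLag (ellTorus p ρ τ κ r)

variable {p : ℝ → ℂ} {ρ τ κ : ℝ → ℝ} {r : ℝ × ℝ → ℝ}

theorem ell_eq (x : ℝ × ℝ) : ellTorus p ρ τ κ r x =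
    (p x.1 + NN (ρ x.1) (τ x.1) (κ x.1) (ec x.2), r x * Complex.exp (x.1 * Complex.I)) := rfl

theorem hd_l (θ φ : ℝ) : HasDerivAt (fun θ : ℝ => (θ, φ)) ((1, 0) : ℝ × ℝ) θ :=
  (hasDerivAt_id θ).prodMk (hasDerivAt_const θ φ)

theorem hd_r (θ φ : ℝ) : HasDerivAt (fun φ : ℝ => (θ, φ)) ((0, 1) : ℝ × ℝ) φ :=
  (hasDerivAt_const φ θ).prodMk (hasDerivAt_id φ)

namespace Inp

theorem smooth (D : Inp p ρ τ κ r) : ContDiff ℝ ∞ (ellTorus p ρ τ κ r) := by
  have h1 := D.sp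
  have h2 := D.sρ
  have h3 := D.sτ
  have h4 := D.sκ
  have h5 := D.sr
  have h6 : ContDiff ℝ ∞ ec := cd_mk contDiff_cos contDiff_sin
  rw [funext ell_eq]
  fun_prop

theorem d1 (D : Inp p ρ τ κ r) (θ φ : ℝ) : fderiv ℝ (ellTorus p ρ τ κ r) (θ, φ) (1, 0) =
    (deriv p θ + NN (deriv ρ θ) (deriv τ θ) (deriv κ θ) (ec φ),
      (fderiv ℝ r (θ, φ) (1, 0) + r (θ, φ) * Complex.I) * Complex.exp (θ * Complex.I)) := by
  refine (along (D.smooth.differentiable (by simp) _) (hd_l θ φ)).unique ?_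
  simp only [ell_eq]
  refine (((hd_of D.sp θ).fun_add (hd_NN (hd_of D.sρ θ) (hd_of D.sτ θ) (hd_of D.sκ θ) _)).prodMk
    ((along (D.sr.differentiable (by simp) _) (hd_l θ φ)).ofReal_comp.fun_mul
      (hd_exp θ))).congr_deriv (Prod.ext rfl ?_)
  simp only
  ring

theorem d2 (D : Inp p ρ τ κ r) (θ φ : ℝ) : fderiv ℝ (ellTorus p ρ τ κ r) (θ, φ) (0, 1) =
    (NN (ρ θ) (τ θ) (κ θ) (ed φ), fderiv ℝ r (θ, φ) (0, 1) * Complex.exp (θ * Complex.I)) := by
  refine (along (D.smooth.differentiable (by simp) _) (hd_r θ φ)).unique ?_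
  simp only [ell_eq]
  exact ((hd_NNw _ _ _ (hd_ec φ)).const_add _).prodMk
    ((along (D.sr.differentiable (by simp) _) (hd_r θ φ)).ofReal_comp.mul_const _)

theorem exp_sq (θ : ℝ) :
    (Complex.exp (θ * Complex.I)).re ^ 2 + (Complex.exp (θ * Complex.I)).im ^ 2 = 1 := by
  rw [← sq_nrm, Complex.norm_exp_ofReal_mul_I, one_pow]

theorem lag' (D : Inp p ρ τ κ r) (θ φ : ℝ) :
    w1 (deriv p θ + NN (deriv ρ θ) (deriv τ θ) (deriv κ θ) (ec φ)) (NN (ρ θ) (τ θ) (κ θ) (ed φ)) =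
      r (θ, φ) * fderiv ℝ r (θ, φ) (0, 1) := by
  have h := D.lag (θ, φ)
  rw [D.d1, D.d2, om] at h
  simp only [w1, Complex.mul_re, Complex.mul_im, Complex.add_re, Complex.add_im, Complex.ofReal_re,
    Complex.ofReal_im, Complex.I_re, Complex.I_im] at h ⊢
  linear_combination h + r (θ, φ) * fderiv ℝ r (θ, φ) (0, 1) * exp_sq θ

theorem per1 (D : Inp p ρ τ κ r) (x : ℝ × ℝ) :
    ellTorus p ρ τ κ r (x + (2 * π, 0)) = ellTorus p ρ τ κ r x := by
  obtain ⟨θ, φ⟩ := x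
  simp [ell_eq, D.pp, D.pρ, D.pτ, D.pκ, D.pr1, add_mul, Complex.exp_add]

theorem per2 (D : Inp p ρ τ κ r) (x : ℝ × ℝ) :
    ellTorus p ρ τ κ r (x + (0, 2 * π)) = ellTorus p ρ τ κ r x := by
  obtain ⟨θ, φ⟩ := x
  simp [ell_eq, D.pr2, ec]

theorem slit (D : Inp p ρ τ κ r) (θ φ : ℝ) :
    NN (ρ θ) (τ θ) (κ θ) (ed φ) * conj (ed φ) ∈ Complex.slitPlane := by
  have h1 := D.ρ0 θ
  have h2 := D.κ0 θ
  have h3 := cos_sq_add_sin_sq φ
  rw [Complex.mem_slitPlane_iff, or_iff_not_imp_right, not_not]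
  simp only [NN, ed, Complex.mul_re, Complex.mul_im, Complex.conj_re, Complex.conj_im]
  intro h
  by_cases h4 : cos φ = 0
  · rw [h4] at h3 ⊢
    nlinarith
  · have h5 : τ θ * cos φ = (ρ θ - κ θ) * sin φ := mul_left_cancel₀ h4 (by linarith)
    rw [h5]
    nlinarith

/-- A continuous argument of the square of the determinant. -/
theorem maslov (D : Inp p ρ τ κ r) : ∃ A : ℝ × ℝ → ℝ, Continuous A ∧
    (∀ x, A (x + (2 * π, 0)) = A x) ∧ (∀ x, A (x + (0, 2 * π)) = A x) ∧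
    ∀ x : ℝ × ℝ, ∃ R : ℝ, 0 < R ∧ fdet (ellTorus p ρ τ κ r) x ^ 2 =
      R * Complex.exp ((2 * (x.1 + x.2 + A x) : ℝ) * Complex.I) := by
  obtain ⟨X, hX⟩ : ∃ X : ℝ × ℝ → ℂ, ∀ x,
    X x = (fderiv ℝ (ellTorus p ρ τ κ r) x (0, 1)).1 * conj (ed x.2) := ⟨_, fun _ => rfl⟩
  obtain ⟨Y, hY⟩ : ∃ Y : ℝ × ℝ → ℂ, ∀ x, Y x = Complex.I * conj (Complex.exp (x.1 * Complex.I)) *
    fdet (ellTorus p ρ τ κ r) x * conj (fderiv ℝ (ellTorus p ρ τ κ r) x (0, 1)).1 :=
    ⟨_, fun _ => rfl⟩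
  have hc := D.smooth.continuous_fderiv (by simp)
  have cX : Continuous X := by
    rw [funext hX]
    simp only [ed_eq]
    fun_prop
  have cY : Continuous Y := by
    rw [funext hY]
    unfold fdet
    fun_prop
  have sX : ∀ x, X x ∈ Complex.slitPlane := fun x => by
    rw [hX, D.d2]
    exact D.slit _ _
  have hz : ∀ θ φ, NN (ρ θ) (τ θ) (κ θ) (ed φ) ≠ 0 := fun θ φ h =>
    Complex.slitPlane_ne_zero (D.slit θ φ) (by rw [h, zero_mul])
  have sY : ∀ x, Y x ∈ Complex.slitPlane := fun x => by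
    obtain ⟨θ, φ⟩ := x
    refine Or.inl ?_
    have h1 := D.lag' θ φ
    have h2 := D.r0 (θ, φ)
    have h3 := norm_pos_iff.2 (hz θ φ)
    have h4 : (Y (θ, φ)).re = r (θ, φ) * (‖NN (ρ θ) (τ θ) (κ θ) (ed φ)‖ ^ 2 +
        fderiv ℝ r (θ, φ) (0, 1) ^ 2) := by
      rw [hY, fdet, D.d1, D.d2, sq_nrm]
      generalize deriv p θ + NN (deriv ρ θ) (deriv τ θ) (deriv κ θ) (ec φ) = a at h1
      generalize NN (ρ θ) (τ θ) (κ θ) (ed φ) = b at h1
      simp only [w1, Complex.mul_re, Complex.mul_im, Complex.add_re, Complex.add_im,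
        Complex.sub_re, Complex.sub_im, Complex.ofReal_re, Complex.ofReal_im, Complex.I_re,
        Complex.I_im, Complex.conj_re, Complex.conj_im] at h1 ⊢
      linear_combination fderiv ℝ r (θ, φ) (0, 1) * h1 + (r (θ, φ) * (b.re ^ 2 + b.im ^ 2) +
        fderiv ℝ r (θ, φ) (0, 1) * (a.re * b.im - a.im * b.re)) * exp_sq θ
    rw [h4]
    positivity
  have sh : ∀ c, (∀ x, ellTorus p ρ τ κ r (x + c) = ellTorus p ρ τ κ r x) →
      ∀ x, fderiv ℝ (ellTorus p ρ τ κ r) (x + c) = fderiv ℝ (ellTorus p ρ τ κ r) x :=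
    fun c h x => by rw [← fderiv_comp_add_right, funext h]
  refine ⟨fun x => Complex.arg (X x) + Complex.arg (Y x), continuous_iff_continuousAt.2 fun x =>
    ((Complex.continuousAt_arg (sX x)).comp cX.continuousAt).add
      ((Complex.continuousAt_arg (sY x)).comp cY.continuousAt), fun x => ?_, fun x => ?_,
    fun x => ?_⟩
  · simp [hX, hY, fdet, sh _ D.per1, add_mul, Complex.exp_add]
  · simp [hX, hY, fdet, sh _ D.per2, ed]
  · have h1 := norm_pos_iff.2 (Complex.slitPlane_ne_zero (sX x))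
    have h2 := norm_pos_iff.2 (Complex.slitPlane_ne_zero (sY x))
    obtain ⟨z, hz0⟩ : ∃ z, z = (fderiv ℝ (ellTorus p ρ τ κ r) x (0, 1)).1 := ⟨_, rfl⟩
    have h3 : 0 < ‖z‖ := by
      rw [hz0, D.d2]
      exact norm_pos_iff.2 (hz _ _)
    refine ⟨(‖X x‖ * ‖Y x‖ / ‖z‖ ^ 2) ^ 2, by positivity, ?_⟩
    have h4 : (‖z‖ : ℂ) ≠ 0 := Complex.ofReal_ne_zero.2 h3.ne'
    have h5 : ∀ a : ℝ, Complex.exp (a * Complex.I) * conj (Complex.exp (a * Complex.I)) = 1 :=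
      fun a => by rw [Complex.mul_conj', Complex.norm_exp_ofReal_mul_I]; simp
    have h6 : fdet (ellTorus p ρ τ κ r) x * ‖z‖ ^ 2 =
        Complex.exp (x.1 * Complex.I) * Complex.exp (x.2 * Complex.I) * X x * Y x := by
      rw [hX, hY, ← hz0, ed_eq, map_mul, Complex.conj_I, ← Complex.mul_conj']
      linear_combination (-(fdet (ellTorus p ρ τ κ r) x * z * conj z)) * h5 x.1 -
        fdet (ellTorus p ρ τ κ r) x * z * conj z * Complex.exp (x.1 * Complex.I) *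
          conj (Complex.exp (x.1 * Complex.I)) * h5 x.2 +
        fdet (ellTorus p ρ τ κ r) x * z * conj z * Complex.exp (x.1 * Complex.I) *
          conj (Complex.exp (x.1 * Complex.I)) * Complex.exp (x.2 * Complex.I) *
          conj (Complex.exp (x.2 * Complex.I)) * Complex.I_mul_I
    have h7 : Complex.exp ((2 * (x.1 + x.2 + (Complex.arg (X x) + Complex.arg (Y x))) : ℝ) *
        Complex.I) = (Complex.exp (x.1 * Complex.I) * Complex.exp (x.2 * Complex.I) *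
        Complex.exp (Complex.arg (X x) * Complex.I) *
        Complex.exp (Complex.arg (Y x) * Complex.I)) ^ 2 := by
      rw [← Complex.exp_add, ← Complex.exp_add, ← Complex.exp_add, sq, ← Complex.exp_add]
      congr 1
      push_cast
      ring
    rw [h7, (eq_div_iff (pow_ne_zero 2 h4)).2 h6]
    conv_lhs => rw [← Complex.norm_mul_exp_arg_mul_I (X x), ← Complex.norm_mul_exp_arg_mul_I (Y x)]
    push_cast
    ring

theorem loop (D : Inp p ρ τ κ r) {lam : ℝ} (hm : IsMonotone (ellTorus p ρ τ κ r) lam)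
    (x v : ℝ × ℝ) (hv : v = (1, 0) ∨ v = (0, 1)) {F : ℝ → ℝ}
    (hF : ∀ t, HasDerivAt F (om (ellTorus p ρ τ κ r (x + t • v))
      (fderiv ℝ (ellTorus p ρ τ κ r) (x + t • v) v) / 2) t) : F (2 * π) - F 0 = 2 * lam := by
  obtain ⟨A, cA, p1, p2, hA⟩ := D.maslov
  have hc : ∀ t : ℝ, HasDerivAt (fun t : ℝ => x + (2 * π * t) • v) ((2 * π) • v) t := fun t =>
    ((hd_lin (2 * π) t).smul_const v).const_add x
  have h1 := hm (fun t => x + (2 * π * t) • v) (fun t => 2 * ((x + (2 * π * t) • v).1 +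
    (x + (2 * π * t) • v).2 + A (x + (2 * π * t) • v))) (by fun_prop) (by fun_prop)
    (by
      rcases hv with rfl | rfl
      · exact ⟨1, 0, by simp⟩
      · exact ⟨0, 1, by simp⟩) fun t => hA _
  have h2 : ∀ t, HasDerivAt (fun t => F (2 * π * t)) (om (ellTorus p ρ τ κ r (x + (2 * π * t) • v))
      (deriv (fun s => ellTorus p ρ τ κ r (x + (2 * π * s) • v)) t) / 2) t := fun t => by
    refine ((hF (2 * π * t)).comp t (hd_lin (2 * π) t)).congr_deriv ?_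
    rw [(along (D.smooth.differentiable (by simp) _) (hc t)).deriv, map_smul]
    simp only [om, w1, Prod.smul_fst, Prod.smul_snd, Complex.smul_re, Complex.smul_im, smul_eq_mul]
    ring
  have h3 : ContDiff ℝ ∞ fun s : ℝ => ellTorus p ρ τ κ r (x + (2 * π * s) • v) :=
    D.smooth.comp (by fun_prop)
  have h4 : ∀ f g : ℝ → ℂ × ℂ, Continuous f → Continuous g →
      Continuous fun t => om (f t) (g t) / 2 := fun f g hf hg => by
    simp only [om, w1]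
    fun_prop
  rw [intervalIntegral.integral_eq_sub_of_hasDerivAt (fun t _ => h2 t)
    ((h4 _ _ h3.continuous (cont_deriv h3)).intervalIntegrable _ _)] at h1
  simp only [mul_one, mul_zero] at h1
  rw [h1]
  rcases hv with rfl | rfl
  · simp [p1]
    field_simp
    ring
  · simp [p2]
    field_simp
    ring

theorem area (D : Inp p ρ τ κ r) {lam : ℝ} (hm : IsMonotone (ellTorus p ρ τ κ r) lam) (θ : ℝ) :
    π * (ρ θ * κ θ) = 2 * lam := by
  have h := D.loop hm (θ, 0) (0, 1) (Or.inr rfl)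
    (F := fun t => w1 (p θ) (NN (ρ θ) (τ θ) (κ θ) (ec t)) / 2 + ρ θ * κ θ / 2 * t) fun t => by
      refine (((hd_w1 (hasDerivAt_const t _) (hd_NNw _ _ _ (hd_ec t))).div_const 2).fun_add
        (hd_lin _ t)).congr_deriv ?_
      simp only [Prod.smul_mk, mul_zero, Prod.mk_add_mk, add_zero, zero_add, smul_eq_mul, mul_one,
        D.d2, ell_eq, om, w1, NN, ec, ed, Complex.mul_re, Complex.mul_im, Complex.add_re,
        Complex.add_im, Complex.ofReal_re, Complex.ofReal_im, Complex.zero_re, Complex.zero_im]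
      linear_combination (-(ρ θ * κ θ) / 2) * cos_sq_add_sin_sq t
  simp [ec] at h
  linarith

end Inp

end Pool.Agent.Lib.MP_7ed551_gt
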