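import Pool.Agent.Lib.MP_7ed551_gt.Polar

/-! Quadratic polynomials that are positive on a circle; primitives; staggered parameters. -/

open scoped ContDiff Topology Manifold
open Set Real Filter

namespace Pool.Agent.Lib.MP_7ed551_gt

/-- A quadratic polynomial that is positive on the unit circle agrees there with a polynomial whose
homogenisation is positive definite. -/
theorem slemma {c l m a b d : ℝ}
    (h : ∀ x y : ℝ, x ^ 2 + y ^ 2 = 1 → 0 < c + (l * x + m * y) + (a * x ^ 2 + b * x * y + d * y ^ 2)) :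
    ∃ μ : ℝ, ∀ s x y : ℝ, s ≠ 0 ∨ x ≠ 0 ∨ y ≠ 0 → 0 < s ^ 2 * c + s * (l * x + m * y) +
      (a * x ^ 2 + b * x * y + d * y ^ 2) - μ * (x ^ 2 + y ^ 2 - s ^ 2) := by
  obtain ⟨k, hk⟩ : ∃ k : ℂ → ℝ, ∀ w, k w = c + (l * w.re + m * w.im) +
      (a * w.re ^ 2 + b * w.re * w.im + d * w.im ^ 2) := ⟨_, fun _ => rfl⟩
  have hS : ∀ w : ℂ, w ∈ Metric.sphere (0 : ℂ) 1 ↔ w.re ^ 2 + w.im ^ 2 = 1 := fun w => by
    rw [mem_sphere_zero_iff_norm, Complex.norm_eq_sqrt_sq_add_sq, Real.sqrt_eq_one]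
  obtain ⟨u, hu, hmin⟩ := (isCompact_sphere (0 : ℂ) 1).exists_isMinOn ⟨1, by simp⟩ (f := k)
    (by rw [funext hk]; fun_prop)
  have hu1 := (hS u).1 hu
  have hm : ∀ x y : ℝ, x ^ 2 + y ^ 2 = 1 → k u ≤ c + (l * x + m * y) +
      (a * x ^ 2 + b * x * y + d * y ^ 2) := fun x y hxy => by
    have := hmin ((hS ⟨x, y⟩).2 hxy)
    rwa [mem_ofPred_eq, hk ⟨x, y⟩] at this
  have hpos : 0 < k u := hk u ▸ h _ _ hu1
  obtain ⟨u1, u2⟩ := u
  rw [hk] at hm hpos
  simp only at hu1 hm hpos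
  have htan : (l + 2 * a * u1 + b * u2) * -u2 + (m + b * u1 + 2 * d * u2) * u1 = 0 := by
    have hx : HasDerivAt (fun t => u1 * cos t - u2 * sin t) (-u2) 0 := by
      simpa using ((hasDerivAt_cos 0).const_mul u1).fun_sub ((hasDerivAt_sin 0).const_mul u2)
    have hy : HasDerivAt (fun t => u1 * sin t + u2 * cos t) u1 0 := by
      simpa using ((hasDerivAt_sin 0).const_mul u1).fun_add ((hasDerivAt_cos 0).const_mul u2)
    have hd := (((hx.const_mul l).fun_add (hy.const_mul m)).const_add c).fun_add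
      ((((hx.fun_pow 2).const_mul a).fun_add ((hx.const_mul b).fun_mul hy)).fun_add
        ((hy.fun_pow 2).const_mul d))
    have h0 := IsLocalMin.hasDerivAt_eq_zero (Eventually.of_forall fun t => by
      simpa using hm (u1 * cos t - u2 * sin t) (u1 * sin t + u2 * cos t) (by
        linear_combination hu1 + (u1 ^ 2 + u2 ^ 2) * cos_sq_add_sin_sq t)) hd
    simp at h0
    linarith
  obtain ⟨n, hn⟩ : ∃ n, 2 * n = (l + 2 * a * u1 + b * u2) * u1 + (m + b * u1 + 2 * d * u2) * u2 :=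
    ⟨_, mul_div_cancel₀ _ two_ne_zero⟩
  have g1 : l + 2 * a * u1 + b * u2 = 2 * n * u1 := by
    linear_combination -u2 * htan - u1 * hn - (l + 2 * a * u1 + b * u2) * hu1
  have g2 : m + b * u1 + 2 * d * u2 = 2 * n * u2 := by
    linear_combination u1 * htan - u2 * hn - (m + b * u1 + 2 * d * u2) * hu1
  have chord : ∀ x y : ℝ, u1 * x + u2 * y ≠ 0 →
      n * (x ^ 2 + y ^ 2) ≤ a * x ^ 2 + b * x * y + d * y ^ 2 := by
    intro x y hxy
    have h1 : x ^ 2 + y ^ 2 ≠ 0 := fun h0 => hxy (by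
      have hx : x = 0 := by nlinarith
      have hy : y = 0 := by nlinarith
      simp [hx, hy])
    obtain ⟨t, ht⟩ : ∃ t, t * (x ^ 2 + y ^ 2) = -2 * (u1 * x + u2 * y) :=
      ⟨_, div_mul_cancel₀ _ h1⟩
    have ht0 : 0 < t ^ 2 := sq_pos_of_ne_zero fun h0 => hxy (by rw [h0] at ht; linarith)
    have h2 := hm (u1 + t * x) (u2 + t * y) (by linear_combination hu1 + t * ht)
    refine le_of_mul_le_mul_left ?_ ht0
    have h3 : t ^ 2 * (a * x ^ 2 + b * x * y + d * y ^ 2) - t ^ 2 * (n * (x ^ 2 + y ^ 2)) =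
        c + (l * (u1 + t * x) + m * (u2 + t * y)) + (a * (u1 + t * x) ^ 2 +
          b * (u1 + t * x) * (u2 + t * y) + d * (u2 + t * y) ^ 2) -
        (c + (l * u1 + m * u2) + (a * u1 ^ 2 + b * u1 * u2 + d * u2 ^ 2)) := by
      linear_combination -t * x * g1 - t * y * g2 - n * t * ht
    linarith
  have psd : ∀ x y : ℝ, n * (x ^ 2 + y ^ 2) ≤ a * x ^ 2 + b * x * y + d * y ^ 2 := by
    intro x y
    by_cases hxy : u1 * x + u2 * y = 0
    · have h1 : Tendsto (fun e : ℝ => a * (x + e * u1) ^ 2 + b * (x + e * u1) * (y + e * u2) +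
          d * (y + e * u2) ^ 2 - n * ((x + e * u1) ^ 2 + (y + e * u2) ^ 2)) (𝓝[>] 0)
          (𝓝 (a * x ^ 2 + b * x * y + d * y ^ 2 - n * (x ^ 2 + y ^ 2))) := by
        refine tendsto_nhdsWithin_of_tendsto_nhds (Continuous.tendsto' (by fun_prop) _ _ ?_)
        simp
      refine sub_nonneg.1 (ge_of_tendsto h1 ?_)
      filter_upwards [self_mem_nhdsWithin] with e he
      refine sub_nonneg.2 (chord _ _ ?_)
      have h2 : u1 * (x + e * u1) + u2 * (y + e * u2) = e := by linear_combination hxy + e * hu1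
      rw [h2]
      exact ne_of_gt he
    · exact chord x y hxy
  obtain ⟨k0, hk0⟩ : ∃ k0, k0 = c + (l * u1 + m * u2) + (a * u1 ^ 2 + b * u1 * u2 + d * u2 ^ 2) :=
    ⟨_, rfl⟩
  rw [← hk0] at hpos
  refine ⟨n - k0 / 2, fun s x y hs => ?_⟩
  have h1 := psd (x - s * u1) (y - s * u2)
  have h2 : 0 < s ^ 2 + x ^ 2 + y ^ 2 := by
    rcases hs with h0 | h0 | h0 <;> positivity
  have h3 : s ^ 2 * c + s * (l * x + m * y) + (a * x ^ 2 + b * x * y + d * y ^ 2) -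
      (n - k0 / 2) * (x ^ 2 + y ^ 2 - s ^ 2) = k0 / 2 * (s ^ 2 + x ^ 2 + y ^ 2) +
      (a * (x - s * u1) ^ 2 + b * (x - s * u1) * (y - s * u2) + d * (y - s * u2) ^ 2 -
        n * ((x - s * u1) ^ 2 + (y - s * u2) ^ 2)) := by
    linear_combination -s ^ 2 * hk0 + s * (x - s * u1) * g1 + s * (y - s * u2) * g2 -
      n * s ^ 2 * hu1
  rw [h3]
  have := mul_pos (half_pos hpos) h2
  linarith

/-- A smooth periodic choice of the multiplier. -/
theorem select {k : ℝ → ℝ × ℂ → ℝ} (hc : Continuous fun x : ℝ × ℝ × ℂ => k x.1 x.2)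
    (hp : Function.Periodic k (2 * π)) (hh : ∀ θ (t : ℝ) v, k θ (t • v) = t ^ 2 * k θ v)
    (he : ∀ θ, ∃ μ : ℝ, ∀ v, v ≠ 0 → 0 < k θ v - μ * (‖v.2‖ ^ 2 - v.1 ^ 2)) :
    ∃ μ : ℝ → ℝ, ContDiff ℝ ∞ μ ∧ Function.Periodic μ (2 * π) ∧
      ∀ θ v, v ≠ 0 → 0 < k θ v - μ θ * (‖v.2‖ ^ 2 - v.1 ^ 2) := by
  have hopen : ∀ μ : ℝ, IsOpen {θ | ∀ v, v ≠ 0 → 0 < k θ v - μ * (‖v.2‖ ^ 2 - v.1 ^ 2)} := by
    intro μ
    refine isOpen_iff_mem_nhds.2 fun θ hθ => ?_
    have h1 := (isCompact_sphere (0 : ℝ × ℂ) 1).eventually_forall_of_forall_eventually (x₀ := θ)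
      (P := fun θ v => 0 < k θ v - μ * (‖v.2‖ ^ 2 - v.1 ^ 2)) fun v hv =>
        (isOpen_lt (f := fun _ => (0 : ℝ))
          (g := fun z : ℝ × ℝ × ℂ => k z.1 z.2 - μ * (‖z.2.2‖ ^ 2 - z.2.1 ^ 2)) continuous_const
          (hc.sub (by fun_prop))).mem_nhds
          (hθ v (Metric.ne_of_mem_sphere hv one_ne_zero))
    filter_upwards [h1] with θ' h' v hv
    have h2 : 0 < ‖v‖ := norm_pos_iff.2 hv
    have h3 := h' (‖v‖⁻¹ • v) (by simp [norm_smul, h2.ne'])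
    rw [hh, Prod.smul_snd, Prod.smul_fst, norm_smul, norm_inv, norm_norm, smul_eq_mul] at h3
    refine (mul_pos_iff_of_pos_left (a := ‖v‖⁻¹ ^ 2) (by positivity)).1 ?_
    linarith
  obtain ⟨g, hg⟩ := exists_contMDiffMap_forall_mem_convex_of_local_const (n := ⊤) 𝓘(ℝ, ℂ)
    (t := fun x : ℂ => {μ : ℝ | ∀ θ : ℝ, Complex.exp (θ * Complex.I) = x →
      ∀ v, v ≠ 0 → 0 < k θ v - μ * (‖v.2‖ ^ 2 - v.1 ^ 2)})
    (fun x μ hμ ν hν a b ha hb hab θ hθ v hv => by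
      have h1 := hμ θ hθ v hv
      have h2 := hν θ hθ v hv
      have h3 := (convex_Ioi (0 : ℝ)) h1 h2 ha hb hab
      simp only [smul_eq_mul, mem_Ioi] at h3 ⊢
      have h4 : k θ v = (a + b) * k θ v := by rw [hab, one_mul]
      linarith)
    fun x => by
      obtain ⟨μ, hμ⟩ : ∃ μ : ℝ, ∀ θ : ℝ, Complex.exp (θ * Complex.I) = x →
          ∀ v, v ≠ 0 → 0 < k θ v - μ * (‖v.2‖ ^ 2 - v.1 ^ 2) := by
        by_cases hx : ∃ θ : ℝ, Complex.exp (θ * Complex.I) = x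
        · obtain ⟨θ, rfl⟩ := hx
          obtain ⟨μ, hμ⟩ := he θ
          exact ⟨μ, fun θ' h' => per_of_exp hp h' ▸ hμ⟩
        · exact ⟨0, fun θ h' => (hx ⟨θ, h'⟩).elim⟩
      refine ⟨μ, ?_⟩
      have hZ := ((isCompact_Icc (a := -π) (b := π)).diff (hopen μ)).image
        (f := fun θ : ℝ => Complex.exp (θ * Complex.I)) (by fun_prop)
      filter_upwards [hZ.isClosed.isOpen_compl.mem_nhds (by
        rintro ⟨θ, h1, h2⟩
        exact h1.2 (hμ θ h2))] with y hy θ hθ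
      have h1 : Complex.exp (Complex.arg y * Complex.I) = y := by
        have := Complex.norm_mul_exp_arg_mul_I y
        rwa [show ‖y‖ = 1 by rw [← hθ, Complex.norm_exp_ofReal_mul_I], Complex.ofReal_one,
          one_mul] at this
      rw [per_of_exp hp (hθ.trans h1.symm)]
      by_contra h2
      exact hy ⟨_, ⟨⟨(Complex.neg_pi_lt_arg y).le, Complex.arg_le_pi y⟩, h2⟩, h1⟩
  refine ⟨fun θ => g (Complex.exp (θ * Complex.I)), g.contMDiff.contDiff.comp (by fun_prop),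
    fun θ => ?_, fun θ => hg _ θ rfl⟩
  simp [add_mul, Complex.exp_add]

/-- The primitive of a smooth periodic function. -/
theorem prim {f : ℝ → ℝ} (hf : ContDiff ℝ ∞ f) (hp : Function.Periodic f (2 * π)) :
    ∃ F : ℝ → ℝ, ContDiff ℝ ∞ F ∧ (∀ θ, HasDerivAt F (f θ) θ) ∧
      ∀ θ, F (θ + 2 * π) = F θ + ∫ t in (0 : ℝ)..2 * π, f t := by
  have h1 : ∀ θ, HasDerivAt (fun u => ∫ t in (0 : ℝ)..u, f t) (f θ) θ := fun θ =>
    (hf.continuous.integral_hasStrictDerivAt 0 θ).hasDerivAt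
  refine ⟨_, contDiff_infty_iff_deriv.2 ⟨fun θ => (h1 θ).differentiableAt, ?_⟩, h1, fun θ => ?_⟩
  · rwa [funext fun θ => (h1 θ).deriv]
  · simpa using hp.intervalIntegral_add_eq_add 0 θ fun a b => hf.continuous.intervalIntegrable a b

/-- Three parameters that move from `0` to `1` one after the other. -/
theorem stag : ∃ a b c : ℝ → ℝ, ContDiff ℝ ∞ a ∧ ContDiff ℝ ∞ b ∧ ContDiff ℝ ∞ c ∧
    (a 0 = 0 ∧ b 0 = 0 ∧ c 0 = 0) ∧ (a 1 = 1 ∧ b 1 = 1 ∧ c 1 = 1) ∧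
    ∀ s, (a s ∈ Icc (0 : ℝ) 1 ∧ b s ∈ Icc (0 : ℝ) 1 ∧ c s ∈ Icc (0 : ℝ) 1) ∧
      (b s = 0 ∧ c s = 0 ∨ a s = 1 ∧ c s = 0 ∨ a s = 1 ∧ b s = 1) := by
  have h0 := @smoothTransition.zero_of_nonpos
  have h1 := @smoothTransition.one_of_one_le
  refine ⟨fun s => smoothTransition (3 * s), fun s => smoothTransition (3 * s - 1),
    fun s => smoothTransition (3 * s - 2), by fun_prop, by fun_prop, by fun_prop,
    ⟨h0 (by norm_num), h0 (by norm_num), h0 (by norm_num)⟩,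
    ⟨h1 (by norm_num), h1 (by norm_num), h1 (by norm_num)⟩, fun s => ⟨?_, ?_⟩⟩
  · simp only [mem_Icc, smoothTransition.nonneg, smoothTransition.le_one, and_self]
  · rcases le_total (3 * s) 1 with h | h
    · exact Or.inl ⟨h0 (by linarith), h0 (by linarith)⟩
    · rcases le_total (3 * s) 2 with h' | h'
      · exact Or.inr (Or.inl ⟨h1 h, h0 (by linarith)⟩)
      · exact Or.inr (Or.inr ⟨h1 h, h1 (by linarith)⟩)

end Pool.Agent.Lib.MP_7ed551_gt
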