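import Pool.Agent.Lib.MP_7ed551_gt.Susp
import Pool.Agent.Lib.MP_7ed551_gt.SLem

/-! Straightening the ellipses; the Clifford case. -/

open scoped ContDiff Topology
open Set Real Filter

namespace Pool.Agent.Lib.MP_7ed551_gt

/-- Loops of ellipses with the splitting `B = C - E` of the generating function. -/
structure Dat (δ : ℝ) (p : ℝ → ℂ) (ρ τ κ C E : ℝ → ℝ) : Prop where
  δ0 : 0 < δ
  sp : ContDiff ℝ ∞ p
  sρ : ContDiff ℝ ∞ ρ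
  sτ : ContDiff ℝ ∞ τ
  sκ : ContDiff ℝ ∞ κ
  sC : ContDiff ℝ ∞ C
  sE : ContDiff ℝ ∞ E
  ρ0 : ∀ θ, 0 < ρ θ
  det : ∀ θ, ρ θ * κ θ = δ
  pp : ∀ θ, p (θ + 2 * π) = p θ
  pρ : ∀ θ, ρ (θ + 2 * π) = ρ θ
  pτ : ∀ θ, τ (θ + 2 * π) = τ θ
  pC : ∀ θ, C (θ + 2 * π) = C θ
  pE : ∀ θ, E (θ + 2 * π) = E θ - π * δ

/-- The quadratic part of the height. -/
noncomputable def qq (ρ τ κ : ℝ → ℝ) (θ : ℝ) (w : ℂ) : ℝ :=
  w1 (NN (deriv ρ θ) (deriv τ θ) (deriv κ θ) w) (NN (ρ θ) (τ θ) (κ θ) w) / 2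

/-- The homogenised height in the frame of action zero. -/
noncomputable def hk (p : ℝ → ℂ) (ρ τ κ C E : ℝ → ℝ) (θ s : ℝ) (w : ℂ) : ℝ :=
  s ^ 2 * (deriv C θ - w1 (p θ) (deriv p θ) / 2) + s * w1 (deriv p θ) (NN (ρ θ) (τ θ) (κ θ) w) +
    qq ρ τ κ θ w - deriv E θ * ‖w‖ ^ 2

/-- The first diagonal entry along the straightening. -/
noncomputable def rb (δ : ℝ) (ρ : ℝ → ℝ) (b θ : ℝ) : ℝ := (1 - b) * ρ θ + b * √δ

/-- The off diagonal entry along the straightening. -/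
noncomputable def tb (δ : ℝ) (ρ τ : ℝ → ℝ) (b θ : ℝ) : ℝ := (1 - b) ^ 2 * (τ θ * ρ θ) / rb δ ρ b θ

/-- The second diagonal entry along the straightening. -/
noncomputable def kb (δ : ℝ) (ρ : ℝ → ℝ) (b θ : ℝ) : ℝ := δ / rb δ ρ b θ

/-- The point at which the old quadratic part is evaluated. -/
noncomputable def wb (δ : ℝ) (ρ : ℝ → ℝ) (b θ : ℝ) (w : ℂ) : ℂ :=
  ⟨w.re, (1 - b) * ρ θ * w.im / rb δ ρ b θ⟩

theorem hd_of {F : Type} [NormedAddCommGroup F] [NormedSpace ℝ F] {f : ℝ → F}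
    (hf : ContDiff ℝ ∞ f) (θ : ℝ) : HasDerivAt f (deriv f θ) θ :=
  (hf.differentiable (by simp) θ).hasDerivAt

theorem cont_deriv {F : Type} [NormedAddCommGroup F] [NormedSpace ℝ F] {f : ℝ → F}
    (hf : ContDiff ℝ ∞ f) : Continuous (deriv f) := hf.continuous_deriv (by simp)

theorem sq_nrm (w : ℂ) : ‖w‖ ^ 2 = w.re ^ 2 + w.im ^ 2 := by
  rw [Complex.norm_eq_sqrt_sq_add_sq, sq_sqrt (by positivity)]

theorem qq_real (ρ τ κ : ℝ → ℝ) (θ x : ℝ) : qq ρ τ κ θ ⟨x, 0⟩ = 0 := by simp [qq, w1, NN]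

variable {δ : ℝ} {p : ℝ → ℂ} {ρ τ κ C E : ℝ → ℝ}

theorem Dat.rb_pos (D : Dat δ p ρ τ κ C E) {b : ℝ} (hb : b ∈ Icc (0 : ℝ) 1) (θ : ℝ) :
    0 < rb δ ρ b θ := by
  simpa [rb] using convex_Ioi (0 : ℝ) (D.ρ0 θ) (sqrt_pos.2 D.δ0) (sub_nonneg.2 hb.2) hb.1
    (sub_add_cancel 1 b)

theorem Dat.zero (D : Dat δ p ρ τ κ C E) :
    rb δ ρ 0 = ρ ∧ tb δ ρ τ 0 = τ ∧ kb δ ρ 0 = κ := by
  refine ⟨funext fun θ => by simp [rb], funext fun θ => ?_, funext fun θ => ?_⟩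
  · simp [tb, rb, (D.ρ0 θ).ne']
  · simp [kb, rb, ← D.det θ, (D.ρ0 θ).ne']

theorem str_one (δ : ℝ) (ρ τ : ℝ → ℝ) :
    rb δ ρ 1 = (fun _ => √δ) ∧ tb δ ρ τ 1 = (fun _ => 0) ∧ kb δ ρ 1 = fun _ => √δ :=
  ⟨funext fun θ => by simp [rb], funext fun θ => by simp [tb], funext fun θ => by simp [kb, rb]⟩

theorem Dat.qq_b (D : Dat δ p ρ τ κ C E) {b : ℝ} (hb : b ∈ Icc (0 : ℝ) 1) (θ : ℝ) (w : ℂ) :
    qq (rb δ ρ b) (tb δ ρ τ b) (kb δ ρ b) θ w = qq ρ τ κ θ (wb δ ρ b θ w) := by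
  have h0 := (D.rb_pos hb θ).ne'
  have h1 := (D.ρ0 θ).ne'
  have dr : HasDerivAt (rb δ ρ b) ((1 - b) * deriv ρ θ) θ :=
    ((hd_of D.sρ θ).const_mul _).add_const _
  have dt := (((hd_of D.sτ θ).fun_mul (hd_of D.sρ θ)).const_mul ((1 - b) ^ 2)).fun_div dr h0
  have dk := (hasDerivAt_const θ δ).fun_div dr h0
  have hκ : κ = fun θ => δ / ρ θ := funext fun θ => by
    rw [← D.det θ, mul_div_cancel_left₀ _ (D.ρ0 θ).ne']
  have dκ := (hasDerivAt_const θ δ).fun_div (hd_of D.sρ θ) h1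
  rw [qq, qq, dr.deriv, show deriv (tb δ ρ τ b) θ = _ from dt.deriv,
    show deriv (kb δ ρ b) θ = _ from dk.deriv, hκ, dκ.deriv]
  simp only [w1, NN, wb, tb, kb]
  field_simp
  ring

theorem kk_eq {P : ℝ → ℂ} {B : ℝ → ℝ} {P' : ℂ} {B' θ : ℝ} (hP : HasDerivAt P P' θ)
    (hB : HasDerivAt B B' θ) (ρ τ κ : ℝ → ℝ) (w : ℂ) : kk P ρ τ κ B θ w =
      B' - w1 (P θ) P' / 2 + w1 P' (NN (ρ θ) (τ θ) (κ θ) w) + qq ρ τ κ θ w := by
  rw [kk, hP.deriv, hB.deriv, qq]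

/-- The suspension lemma along the straightening. -/
theorem Dat.susp (D : Dat δ p ρ τ κ C E) {b : ℝ → ℝ} (hb : ContDiff ℝ ∞ b)
    (hb' : ∀ s, b s ∈ Icc (0 : ℝ) 1) (b0 : b 0 = 0) (b1 : b 1 = 1) {P : ℝ × ℝ → ℂ}
    {B : ℝ × ℝ → ℝ} (hP : ContDiff ℝ ∞ P) (hB : ContDiff ℝ ∞ B)
    (pP : ∀ s θ, P (s, θ + 2 * π) = P (s, θ)) (pB : ∀ s θ, B (s, θ + 2 * π) = B (s, θ) + π * δ)
    (pos : ∀ s, ∀ θ ∈ Icc 0 (2 * π), ∀ w : ℂ, ‖w‖ = 1 → 0 < kk (fun θ => P (s, θ)) (rb δ ρ (b s))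
      (tb δ ρ τ (b s)) (kb δ ρ (b s)) (fun θ => B (s, θ)) θ w) :
    HamIso (TT (fun θ => P (0, θ)) ρ τ κ fun θ => B (0, θ))
      (TT (fun θ => P (1, θ)) (fun _ => √δ) (fun _ => 0) (fun _ => √δ) fun θ => B (1, θ)) := by
  have h1 := D.sρ
  have h2 := D.sτ
  have hr : ContDiff ℝ ∞ fun x : ℝ × ℝ => rb δ ρ (b x.1) x.2 := by
    unfold rb
    fun_prop
  have h0 : ∀ x : ℝ × ℝ, rb δ ρ (b x.1) x.2 ≠ 0 := fun x => (D.rb_pos (hb' _) _).ne'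
  have h := _root_.Pool.Agent.Lib.MP_7ed551_gt.susp (a := π * δ) D.δ0.ne' hP hr
    (τ := fun x => tb δ ρ τ (b x.1) x.2) (κ := fun x => kb δ ρ (b x.1) x.2)
    (ContDiff.div (by fun_prop) hr h0) (contDiff_const.div hr h0) hB
    (fun x => mul_div_cancel₀ _ (h0 x))
    (fun s θ => ⟨pP s θ, by simp only [rb, D.pρ], by simp only [tb, rb, D.pρ, D.pτ],
      by simp only [kb, rb, D.pρ], pB s θ⟩) fun s _ => pos s
  simp only [b0, b1] at h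
  obtain ⟨z1, z2, z3⟩ := D.zero
  obtain ⟨o1, o2, o3⟩ := str_one δ ρ τ
  simpa only [z1, z2, z3, o1, o2, o3] using h

theorem NN_round (r : ℝ) (w : ℂ) : NN r 0 r w = r * w := by
  apply Complex.ext <;> simp [NN]

theorem qq_round (r θ : ℝ) (w : ℂ) : qq (fun _ => r) (fun _ => 0) (fun _ => r) θ w = 0 := by
  simp [qq, NN, w1]

theorem exists_angle (z : ℂ) : ∃ θ ∈ Icc 0 (2 * π), z = ‖z‖ * Complex.exp (θ * Complex.I) := by
  rcases le_total 0 (Complex.arg z) with h | h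
  · exact ⟨_, ⟨h, by linarith [Complex.arg_le_pi z, pi_pos]⟩,
      (Complex.norm_mul_exp_arg_mul_I z).symm⟩
  · refine ⟨Complex.arg z + 2 * π, ⟨by linarith [Complex.neg_pi_lt_arg z, pi_pos], by linarith⟩, ?_⟩
    simp [add_mul, Complex.exp_add]

theorem hd_lin (c θ : ℝ) : HasDerivAt (fun θ : ℝ => c * θ) c θ := by
  simpa using (hasDerivAt_id θ).const_mul c

theorem TT_clifford {lam : ℝ} (hδ : 0 < δ) (h : π * δ = 2 * lam) :
    TT (fun _ => 0) (fun _ => √δ) (fun _ => 0) (fun _ => √δ) (fun θ => δ / 2 * θ) =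
      clifford lam := by
  have hk : ∀ θ w, kk (fun _ => 0) (fun _ => √δ) (fun _ => 0) (fun _ => √δ) (fun θ => δ / 2 * θ)
      θ w = δ / 2 := fun θ w => by
    rw [kk_eq (hasDerivAt_const _ _) (hd_lin _ _), qq_round]
    simp [w1]
  have h0 : (√δ : ℂ) ≠ 0 := Complex.ofReal_ne_zero.2 (sqrt_pos.2 hδ).ne'
  have h1 : ∀ x : ℝ, 0 ≤ x → (π * x ^ 2 = 2 * lam ↔ x = √δ) := fun x hx => by
    rw [← h, mul_right_inj' pi_ne_zero, eq_comm, eq_comm (a := x), sqrt_eq_iff_eq_sq hδ.le hx]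
  ext z
  simp only [TT, hk, NN_round, zero_add, mul_div_cancel₀ δ two_ne_zero, clifford, mem_image,
    mem_ofPred_eq, h1 _ (norm_nonneg _)]
  constructor
  · rintro ⟨x, hx, rfl⟩
    have h2 : ‖x.2‖ = 1 := by simpa using hx.2
    simp [h2]
  · rintro ⟨h2, h3⟩
    obtain ⟨θ, hθ, e⟩ := exists_angle z.2
    refine ⟨(θ, z.1 / √δ), ⟨hθ, ?_⟩, Prod.ext (mul_div_cancel₀ _ h0) (by rw [← h3]; exact e.symm)⟩
    simp [h2, abs_of_nonneg (sqrt_nonneg δ), (sqrt_pos.2 hδ).ne']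

theorem w1_smul (s : ℝ) (a b : ℂ) : w1 (s * a) b = s * w1 a b ∧ w1 a (s * b) = s * w1 a b := by
  constructor <;> simp only [w1, Complex.re_ofReal_mul, Complex.im_ofReal_mul] <;> ring

/-- The height along the scaling of the centres. -/
theorem Dat.kk_scale (D : Dat δ p ρ τ κ C E) (s θ : ℝ) {w : ℂ} (hw : ‖w‖ = 1) :
    kk (fun θ => s * p θ) ρ τ κ (fun θ => s ^ 2 * C θ - E θ) θ w = hk p ρ τ κ C E θ s w := by
  rw [kk_eq ((hd_of D.sp θ).const_mul (s : ℂ))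
    (((hd_of D.sC θ).const_mul _).fun_sub (hd_of D.sE θ)), hk, hw]
  simp only [(w1_smul _ _ _).1, (w1_smul _ _ _).2]
  ring

theorem Dat.clifford (D : Dat δ p ρ τ κ C E) {lam : ℝ} (h : π * δ = 2 * lam)
    (H : ∀ θ s w, w ≠ 0 → s ^ 2 ≤ ‖w‖ ^ 2 → 0 < hk p ρ τ κ C E θ s w) :
    HamIso (TT p ρ τ κ fun θ => C θ - E θ) (clifford lam) := by
  obtain ⟨a, b, c, sa, sb, sc, ⟨a0, b0, c0⟩, ⟨a1, b1, c1⟩, hs⟩ := stag
  have h1 := D.sp
  have h2 := D.sC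
  have h3 := D.sE
  have hE : ∀ θ, 0 < -deriv E θ := fun θ => by
    have := H θ 0 ⟨1, 0⟩ (by simp [Complex.ext_iff]) (by simp)
    simpa [hk, qq_real, Complex.norm_eq_sqrt_sq_add_sq] using this
  have key := D.susp sb (fun s => (hs s).1.2.1) b0 b1
    (P := fun x => ((1 - a x.1 : ℝ) : ℂ) * p x.2)
    (B := fun x => (1 - a x.1) ^ 2 * C x.2 - ((1 - c x.1) * E x.2 - c x.1 * (δ / 2 * x.2)))
    (by fun_prop) (by fun_prop) (fun s θ => by simp only [D.pp])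
    (fun s θ => by simp only [D.pC, D.pE]; ring) fun s θ _ w hw => ?_
  · simpa [a0, c0, a1, c1, ← TT_clifford D.δ0 h] using key
  obtain ⟨⟨ha, hb, hc⟩, ⟨e1, e2⟩ | ⟨e1, e2⟩ | ⟨e1, e2⟩⟩ := hs s
  · obtain ⟨z1, z2, z3⟩ := D.zero
    simp only [e1, e2, z1, z2, z3, sub_zero, one_mul, zero_mul]
    rw [D.kk_scale _ _ hw]
    refine H _ _ _ (by rintro rfl; simp at hw) ?_
    rw [hw]
    nlinarith [ha.1, ha.2]
  · simp only [e1, e2, sub_self, sub_zero, one_mul, zero_mul, Complex.ofReal_zero, ne_eq,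
      OfNat.ofNat_ne_zero, not_false_eq_true, zero_pow, zero_sub]
    rw [kk_eq (hasDerivAt_const _ _) (hd_of D.sE θ).fun_neg, D.qq_b hb]
    have h4 : ‖wb δ ρ (b s) θ w‖ ^ 2 ≤ 1 := by
      have h5 := D.rb_pos hb θ
      have h6 : (1 - b s) * ρ θ / rb δ ρ (b s) θ ≤ 1 := by
        rw [div_le_one h5, rb]
        exact le_add_of_nonneg_right (mul_nonneg hb.1 (sqrt_nonneg _))
      have h7 : 0 ≤ (1 - b s) * ρ θ / rb δ ρ (b s) θ :=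
        div_nonneg (mul_nonneg (sub_nonneg.2 hb.2) (D.ρ0 θ).le) h5.le
      have h8 : w.re ^ 2 + w.im ^ 2 = 1 := by
        rw [← sq_nrm, hw, one_pow]
      rw [sq_nrm]
      simp only [wb]
      rw [mul_div_right_comm, mul_pow]
      nlinarith [sq_nonneg w.im, pow_le_one₀ h7 h6 (n := 2)]
    have h5 := hE θ
    simp only [w1, Complex.zero_re, Complex.zero_im, zero_mul, mul_zero, sub_zero, zero_div,
      add_zero]
    by_cases h6 : wb δ ρ (b s) θ w = 0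
    · rw [h6]
      simpa [qq, NN, w1] using h5
    · have h7 := H θ 0 _ h6 (by simp)
      simp only [hk, ne_eq, OfNat.ofNat_ne_zero, not_false_eq_true, zero_pow, zero_mul,
        zero_add] at h7
      nlinarith
  · obtain ⟨o1, o2, o3⟩ := str_one δ ρ τ
    simp only [e1, e2, o1, o2, o3, sub_self, zero_mul, Complex.ofReal_zero, ne_eq,
      OfNat.ofNat_ne_zero, not_false_eq_true, zero_pow, zero_sub]
    rw [kk_eq (hasDerivAt_const _ _) (((hd_of D.sE θ).const_mul _).fun_sub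
      ((hd_lin _ θ).const_mul _)).fun_neg, qq_round]
    have h5 := convex_Ioi (0 : ℝ) (hE θ) (half_pos D.δ0) (sub_nonneg.2 hc.2) hc.1
      (sub_add_cancel 1 _)
    simp only [smul_eq_mul, mem_Ioi] at h5
    simp only [w1, Complex.zero_re, Complex.zero_im, zero_mul, mul_zero, sub_zero, zero_div,
      add_zero]
    linarith

end Pool.Agent.Lib.MP_7ed551_gt
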