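import Pool.Agent.Lib.MP_7ed551_gt.Polar

/-! Suspensions of loops of ellipses; a family with constant action is a Hamiltonian isotopy. -/

open scoped ContDiff Topology
open Set Real Filter

namespace Pool.Agent.Lib.MP_7ed551_gt

/-- The triangular matrix with entries `ρ, τ, κ` applied to `w`. -/
def NN (ρ τ κ : ℝ) (w : ℂ) : ℂ := ⟨ρ * w.re + τ * w.im, κ * w.im⟩

/-- The height `|z₂|² / 2` over the point `p θ + N θ w`. -/
noncomputable def kk (p : ℝ → ℂ) (ρ τ κ B : ℝ → ℝ) (θ : ℝ) (w : ℂ) : ℝ :=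
  deriv B θ - w1 (p θ) (deriv p θ) / 2 + w1 (deriv p θ) (NN (ρ θ) (τ θ) (κ θ) w) +
    w1 (NN (deriv ρ θ) (deriv τ θ) (deriv κ θ) w) (NN (ρ θ) (τ θ) (κ θ) w) / 2

/-- The torus of the data. -/
def TT (p : ℝ → ℂ) (ρ τ κ B : ℝ → ℝ) : Set (ℂ × ℂ) :=
  (fun x : ℝ × ℂ => (p x.1 + NN (ρ x.1) (τ x.1) (κ x.1) x.2,
    √(2 * kk p ρ τ κ B x.1 x.2) * Complex.exp (x.1 * Complex.I))) ''
    (Icc 0 (2 * π) ×ˢ Metric.sphere 0 1)

section
variable {E : Type} [NormedAddCommGroup E] [NormedSpace ℝ E]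

@[fun_prop] theorem cd_NN {n : WithTop ℕ∞} {ρ τ κ : E → ℝ} {w : E → ℂ} (h1 : ContDiff ℝ n ρ)
    (h2 : ContDiff ℝ n τ) (h3 : ContDiff ℝ n κ) (h4 : ContDiff ℝ n w) :
    ContDiff ℝ n fun x => NN (ρ x) (τ x) (κ x) (w x) :=
  cd_mk (by fun_prop) (by fun_prop)

/-- The one form `dW - z^* λ` evaluated on a constant vector field. -/
noncomputable def eta (z : E → ℂ) (W : E → ℝ) (a x : E) : ℝ :=
  fderiv ℝ W x a - w1 (z x) (fderiv ℝ z x a) / 2

theorem cd_eta {z : E → ℂ} {W : E → ℝ} (hz : ContDiff ℝ ∞ z) (hW : ContDiff ℝ ∞ W) (a : E) :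
    ContDiff ℝ ∞ (eta z W a) := by
  unfold eta
  fun_prop

theorem hd_line (x b : E) : HasDerivAt (fun r : ℝ => x + r • b) b 0 := by
  simpa using ((hasDerivAt_id (0 : ℝ)).smul_const b).const_add x

theorem hd_snd {F : Type} [NormedAddCommGroup F] [NormedSpace ℝ F] {f : E → F}
    (hf : ContDiff ℝ ∞ f) (x a b : E) :
    HasDerivAt (fun r : ℝ => fderiv ℝ f (x + r • b) a) (fderiv ℝ (fderiv ℝ f) x b a) 0 := by
  have h1 : ContDiff ℝ ∞ (fderiv ℝ f) := hf.fderiv_right (m := ∞) (by simp)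
  simpa using (along (h1.differentiable (by simp) _) (hd_line x b)).clm_apply
    (hasDerivAt_const (0 : ℝ) a)

theorem mixed {z : E → ℂ} {W : E → ℝ} (hz : ContDiff ℝ ∞ z) (hW : ContDiff ℝ ∞ W) (x a b : E) :
    fderiv ℝ (eta z W a) x b - fderiv ℝ (eta z W b) x a =
      -w1 (fderiv ℝ z x b) (fderiv ℝ z x a) := by
  have key : ∀ a b, fderiv ℝ (eta z W a) x b = fderiv ℝ (fderiv ℝ W) x b a -
      (w1 (fderiv ℝ z x b) (fderiv ℝ z x a) + w1 (z x) (fderiv ℝ (fderiv ℝ z) x b a)) / 2 := by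
    intro a b
    have h1 := along ((cd_eta hz hW a).differentiable (by simp) _) (hd_line x b)
    have h2 := (hd_snd hW x a b).sub
      ((hd_w1 (along (hz.differentiable (by simp) _) (hd_line x b)) (hd_snd hz x a b)).div_const 2)
    simpa using h1.unique h2
  have h2 : minSmoothness ℝ 2 ≤ ∞ := by
    rw [minSmoothness_of_isRCLikeNormedField]
    exact WithTop.coe_le_coe.2 le_top
  rw [key, key, hW.contDiffAt.isSymmSndFDerivAt h2 a b, hz.contDiffAt.isSymmSndFDerivAt h2 a b]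
  simp only [w1]
  ring

theorem eta_shift {z : E → ℂ} {W : E → ℝ} {c : E} {d : ℝ} (hz : ∀ x, z (x + c) = z x)
    (hW : ∀ x, W (x + c) = W x + d) (a x : E) : eta z W a (x + c) = eta z W a x := by
  have h1 : fderiv ℝ z (x + c) = fderiv ℝ z x := by
    rw [← fderiv_comp_add_right, funext hz]
  have h2 : fderiv ℝ W (x + c) = fderiv ℝ W x := by
    rw [← fderiv_comp_add_right, funext hW, fderiv_add_const]
  rw [eta, eta, h1, h2, hz]

end

theorem hd_NN {ρ τ κ : ℝ → ℝ} {ρ' τ' κ' r : ℝ} (h1 : HasDerivAt ρ ρ' r) (h2 : HasDerivAt τ τ' r)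
    (h3 : HasDerivAt κ κ' r) (w : ℂ) :
    HasDerivAt (fun r => NN (ρ r) (τ r) (κ r) w) (NN ρ' τ' κ' w) r :=
  hd_mk ((h1.mul_const _).add (h2.mul_const _)) (h3.mul_const _)

theorem hd_NNw (ρ τ κ : ℝ) {w : ℝ → ℂ} {w' : ℂ} {r : ℝ} (h : HasDerivAt w w' r) :
    HasDerivAt (fun r => NN ρ τ κ (w r)) (NN ρ τ κ w') r :=
  hd_mk (((hd_re h).const_mul _).add ((hd_im h).const_mul _)) ((hd_im h).const_mul _)

theorem susp {δ a : ℝ} (hδ : δ ≠ 0) {P : ℝ × ℝ → ℂ} {ρ τ κ B : ℝ × ℝ → ℝ} (hP : ContDiff ℝ ∞ P)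
    (hρ : ContDiff ℝ ∞ ρ) (hτ : ContDiff ℝ ∞ τ) (hκ : ContDiff ℝ ∞ κ) (hB : ContDiff ℝ ∞ B)
    (hd : ∀ x, ρ x * κ x = δ)
    (per : ∀ s θ, P (s, θ + 2 * π) = P (s, θ) ∧ ρ (s, θ + 2 * π) = ρ (s, θ) ∧
      τ (s, θ + 2 * π) = τ (s, θ) ∧ κ (s, θ + 2 * π) = κ (s, θ) ∧ B (s, θ + 2 * π) = B (s, θ) + a)
    (pos : ∀ s ∈ Icc (0 : ℝ) 1, ∀ θ ∈ Icc 0 (2 * π), ∀ w : ℂ, ‖w‖ = 1 →
      0 < kk (fun θ => P (s, θ)) (fun θ => ρ (s, θ)) (fun θ => τ (s, θ)) (fun θ => κ (s, θ))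
        (fun θ => B (s, θ)) θ w) :
    HamIso
      (TT (fun θ => P (0, θ)) (fun θ => ρ (0, θ)) (fun θ => τ (0, θ)) (fun θ => κ (0, θ))
        fun θ => B (0, θ))
      (TT (fun θ => P (1, θ)) (fun θ => ρ (1, θ)) (fun θ => τ (1, θ)) (fun θ => κ (1, θ))
        fun θ => B (1, θ)) := by
  obtain ⟨z, hz0⟩ : ∃ z : ℝ × ℝ × ℂ → ℂ, ∀ x, z x = P (x.1, x.2.1) +
      NN (ρ (x.1, x.2.1)) (τ (x.1, x.2.1)) (κ (x.1, x.2.1)) x.2.2 := ⟨_, fun _ => rfl⟩
  obtain ⟨W, hW0⟩ : ∃ W : ℝ × ℝ × ℂ → ℝ, ∀ x, W x = B (x.1, x.2.1) + w1 (P (x.1, x.2.1))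
      (NN (ρ (x.1, x.2.1)) (τ (x.1, x.2.1)) (κ (x.1, x.2.1)) x.2.2) / 2 := ⟨_, fun _ => rfl⟩
  obtain ⟨ι, hι0⟩ : ∃ ι : ℝ × ℝ × ℂ → ℝ × ℝ × ℂ, ∀ y, ι y = (y.1, y.2.1,
      NN (κ (y.1, y.2.1) / δ) (-τ (y.1, y.2.1) / δ) (ρ (y.1, y.2.1) / δ)
        (y.2.2 - P (y.1, y.2.1))) := ⟨_, fun _ => rfl⟩
  have hz : ContDiff ℝ ∞ z := by
    rw [funext hz0]
    fun_prop
  have hW : ContDiff ℝ ∞ W := by
    rw [funext hW0]
    fun_prop
  have hι : ContDiff ℝ ∞ ι := by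
    rw [funext hι0]
    fun_prop
  have hz1 := hz.differentiable (by simp)
  have hW1 := hW.differentiable (by simp)
  have hg := cd_eta hz hW (1, 0, 0)
  have hF : ContDiff ℝ ∞ (eta z W (1, 0, 0) ∘ ι) := hg.comp hι
  have hιz : ∀ x : ℝ × ℝ × ℂ, ι (x.1, x.2.1, z x) = x := by
    intro x
    rw [hι0, hz0]
    refine Prod.ext rfl (Prod.ext rfl ?_)
    have := hd (x.1, x.2.1)
    apply Complex.ext <;> simp only [NN, add_sub_cancel_left] <;> field_simp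
    · linear_combination x.2.2.re * this
    · linear_combination x.2.2.im * this
  have chain : ∀ x b : ℝ × ℝ × ℂ, fderiv ℝ (eta z W (1, 0, 0)) x b =
      fderiv ℝ (eta z W (1, 0, 0) ∘ ι) (x.1, x.2.1, z x) (b.1, b.2.1, fderiv ℝ z x b) := by
    intro x b
    have h1 := hd_line x b
    have h2 := along (hF.differentiable (by simp) _)
      ((hd_line x.1 b.1).prodMk ((hd_line x.2.1 b.2.1).prodMk (along (hz1 _) h1)))
    simp only [← Prod.smul_fst, ← Prod.smul_snd, ← Prod.fst_add, ← Prod.snd_add] at h2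
    simp only [Function.comp_apply, hιz] at h2
    simpa using (along (hg.differentiable (by simp) _) h1).unique h2
  have hv : ∀ (x : ℝ × ℝ × ℂ) (v : ℂ), fderiv ℝ z x (0, 0, v) =
      NN (ρ (x.1, x.2.1)) (τ (x.1, x.2.1)) (κ (x.1, x.2.1)) v ∧
      eta z W (0, 0, v) x = -(δ * w1 x.2.2 v / 2) := by
    intro x v
    have h1 := hd_line x (0, 0, v)
    have h2 := hd_NNw (ρ (x.1, x.2.1)) (τ (x.1, x.2.1)) (κ (x.1, x.2.1)) (hd_line x.2.2 v)
    have h3 := along (hz1 _) h1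
    have h4 := along (hW1 _) h1
    simp only [hz0, hW0, Prod.fst_add, Prod.snd_add, Prod.smul_mk, smul_zero, add_zero,
      zero_smul] at h3 h4
    have h5 := h3.unique (h2.const_add _)
    have h6 := h4.unique (((hd_w1 (hasDerivAt_const _ _) h2).div_const 2).const_add _)
    refine ⟨h5, ?_⟩
    rw [eta, h5, h6, hz0, ← hd (x.1, x.2.1)]
    simp only [w1, NN, Complex.add_re, Complex.add_im, Complex.zero_re, Complex.zero_im]
    ring
  have h_i : ∀ (x : ℝ × ℝ × ℂ) (y : ℂ), w1 (fderiv ℝ z x (1, 0, 0)) y =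
      fderiv ℝ (eta z W (1, 0, 0) ∘ ι) (x.1, x.2.1, z x) (0, 0, y) := by
    intro x y
    obtain ⟨v, rfl⟩ : ∃ v, y = NN (ρ (x.1, x.2.1)) (τ (x.1, x.2.1)) (κ (x.1, x.2.1)) v := by
      refine ⟨NN (κ (x.1, x.2.1) / δ) (-τ (x.1, x.2.1) / δ) (ρ (x.1, x.2.1) / δ) y, ?_⟩
      have := hd (x.1, x.2.1)
      apply Complex.ext <;> simp only [NN] <;> field_simp
      · linear_combination -y.re * this
      · linear_combination -y.im * this
    have h1 := mixed hz hW x (1, 0, 0) (0, 0, v)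
    have h2 : fderiv ℝ (eta z W (0, 0, v)) x (1, 0, 0) = 0 := by
      have h3 := along ((cd_eta hz hW (0, 0, v)).differentiable (by simp) _) (hd_line x (1, 0, 0))
      simp only [(hv _ _).2, Prod.snd_add, Prod.smul_mk, smul_zero, add_zero, zero_smul] at h3
      simpa using h3.unique (hasDerivAt_const _ _)
    rw [h2, chain, (hv x v).1] at h1
    rw [sub_zero] at h1
    rw [h1]
    simp only [w1]
    ring
  have hk : ∀ s θ w, eta z W (0, 1, 0) (s, θ, w) =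
      kk (fun θ => P (s, θ)) (fun θ => ρ (s, θ)) (fun θ => τ (s, θ)) (fun θ => κ (s, θ))
        (fun θ => B (s, θ)) θ w := by
    intro s θ w
    have h1 : HasDerivAt (fun θ : ℝ => ((s, θ, w) : ℝ × ℝ × ℂ)) (0, 1, 0) θ :=
      (hasDerivAt_const _ _).prodMk ((hasDerivAt_id _).prodMk (hasDerivAt_const _ _))
    have d : ∀ {f : ℝ × ℝ → ℝ}, ContDiff ℝ ∞ f →
        HasDerivAt (fun θ => f (s, θ)) (deriv (fun θ => f (s, θ)) θ) θ := fun hf =>
      ((hf.comp (contDiff_prodMk_right s)).differentiable (by simp) θ).hasDerivAt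
    have dP : HasDerivAt (fun θ => P (s, θ)) (deriv (fun θ => P (s, θ)) θ) θ :=
      ((hP.comp (contDiff_prodMk_right s)).differentiable (by simp) θ).hasDerivAt
    have dN := hd_NN (d hρ) (d hτ) (d hκ) w
    have h3 := along (hz1 _) h1
    have h4 := along (hW1 _) h1
    simp only [hz0, hW0] at h3 h4
    rw [eta, h3.unique (dP.add dN), h4.unique ((d hB).add ((hd_w1 dP dN).div_const 2)), hz0, kk]
    simp only [w1, Complex.add_re, Complex.add_im]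
    ring
  have main := hamIso_polar hF (K := Icc 0 (2 * π) ×ˢ Metric.sphere 0 1) (z := z)
    (h := eta z W (0, 1, 0)) (fun s θ y => ?_) (isCompact_Icc.prod (isCompact_sphere 0 1))
    hz.continuous (cd_eta hz hW _).continuous (fun x hx s hs => ?_) fun x s => ?_
  · simpa only [hk, hz0, TT] using main
  · have h1 : ι (s, θ + 2 * π, y) = ι (s, θ, y) + (0, 2 * π, 0) := by
      simp only [hι0, per s θ, Prod.mk_add_mk, add_zero]
    rw [Function.comp_apply, Function.comp_apply, h1]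
    refine eta_shift (d := a) (fun x => ?_) (fun x => ?_) _ _
    · simp only [hz0, Prod.fst_add, Prod.snd_add, add_zero, per x.1 x.2.1]
    · simp only [hW0, Prod.fst_add, Prod.snd_add, add_zero, per x.1 x.2.1]
      ring
  · rw [hk]
    exact pos s hs _ hx.1 _ (by simpa using hx.2)
  · have h1 : HasDerivAt (fun s : ℝ => ((s, x) : ℝ × ℝ × ℂ)) (1, 0, 0) s :=
      (hasDerivAt_id _).prodMk (hasDerivAt_const _ _)
    refine ⟨_, along (hz1 _) h1, h_i (s, x), (along ((cd_eta hz hW _).differentiable (by simp) _)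
      h1).congr_deriv ?_⟩
    have h2 := mixed hz hW (s, x) (0, 1, 0) (1, 0, 0)
    have h3 : ((0, 1, fderiv ℝ z (s, x) (0, 1, 0)) : ℝ × ℝ × ℂ) =
        (0, 1, 0) + (0, 0, fderiv ℝ z (s, x) (0, 1, 0)) := by simp
    rw [chain, h3, map_add, ← h_i] at h2
    linarith

end Pool.Agent.Lib.MP_7ed551_gt
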